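import Mathlib
import Pool.Agent.H98R2.Ev.Defs

set_option autoImplicit false

/-!
Evasiveness of containing a member of a family of connected non-bipartite graphs for ALL large
`n` (MP_257582_lc): definitions.
-/

namespace Pool.Agent.H98R2.Nb

open Finset Pool.Agent.H98R2.Ev

/-- a family of finite graphs -/
abbrev Fam : Type := Set (Σ k : ℕ, SimpleGraph (Fin k))

/-- `G` contains a member of the family as a (not necessarily induced) subgraph -/
def Has (𝓕 : Fam) {V : Type} (G : SimpleGraph V) : Prop := ∃ F ∈ 𝓕, F.2.IsContained G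

/-- the blow-up of a graph: every vertex is replaced by `b` independent vertices -/
abbrev blow {W : Type} (Γ : SimpleGraph W) (b : ℕ) : SimpleGraph (W × Fin b) := Γ.comap Prod.fst

/-- the standing hypotheses on the family -/
structure Good (𝓕 : Fam) (b : ℕ) : Prop where
  conn : ∀ F ∈ 𝓕, F.2.Connected
  nonbip : ∀ F ∈ 𝓕, ¬ F.2.Colorable 2
  stable : ∀ (m N : ℕ) (Γ : SimpleGraph (Fin m)), Has 𝓕 (blow Γ N) → Has 𝓕 (blow Γ b)

/-- `G` has an independent set `I` such that `G - I` is isomorphic to a subgraph of the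
`N`-dimensional hypercube -/
def NC {k : ℕ} (G : SimpleGraph (Fin k)) (N : ℕ) : Prop :=
  ∃ (I : Set (Fin k)) (φ : Fin k → Finset (Fin N)),
    (∀ x ∈ I, ∀ y ∈ I, ¬ G.Adj x y) ∧ Set.InjOn φ Iᶜ ∧
    ∀ x ∉ I, ∀ y ∉ I, G.Adj x y → (symmDiff (φ x) (φ y)).card = 1

/-- the graph `G` is invariant under the permutation `s` of the vertices -/
def Inv {V : Type} (s : Equiv.Perm V) (G : SimpleGraph V) : Prop :=
  ∀ x y, G.Adj x y → G.Adj (s x) (s y)

section Circ

/-- the classes of differences: units modulo the subgroup generated by `w` and `-1` -/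
abbrev Om (ℓ : ℕ) (w : (ZMod ℓ)ˣ) : Type :=
  (ZMod ℓ)ˣ ⧸ (Subgroup.closure {w, (-1 : (ZMod ℓ)ˣ)})

noncomputable instance (ℓ : ℕ) (w : (ZMod ℓ)ˣ) [NeZero ℓ] : Fintype (Om ℓ w) :=
  Fintype.ofFinite _

noncomputable instance (ℓ : ℕ) (w : (ZMod ℓ)ˣ) : DecidableEq (Om ℓ w) := Classical.decEq _

/-- the circulant graph on `ZMod ℓ` whose differences are the units with class in `T` -/
def cg {ℓ : ℕ} (w : (ZMod ℓ)ˣ) (T : Finset (Om ℓ w)) : SimpleGraph (ZMod ℓ) where
  Adj u v := u ≠ v ∧ ∃ d : (ZMod ℓ)ˣ, v = u + d ∧ (QuotientGroup.mk d : Om ℓ w) ∈ T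
  symm := ⟨by
    rintro u v ⟨h, d, hd, hT⟩
    refine ⟨h.symm, -d, ?_, ?_⟩
    · rw [hd]; push_cast; ring
    · have : (QuotientGroup.mk (-d) : Om ℓ w) = QuotientGroup.mk d := by
        rw [QuotientGroup.eq]
        have h1 : (-d)⁻¹ * d = -1 := by
          rw [inv_neg]; simp
        rw [h1]
        exact Subgroup.subset_closure (by simp)
      rw [this]; exact hT⟩
  loopless := ⟨fun u h => h.1 rfl⟩

open Classical in
/-- the signed number of non-empty sets `T` of classes whose circulant graph has no member -/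
noncomputable def cv (𝓕 : Fam) (ℓ : ℕ) (w : (ZMod ℓ)ˣ) [NeZero ℓ] : ℤ :=
  ∑ T : Finset (Om ℓ w), if T = ∅ ∨ Has 𝓕 (cg w T) then 0 else (-1) ^ T.card

end Circ

section VB

variable {I J : Type} (F : I → Type) [∀ i, Field (F i)] (ℓ : J → ℕ)

/-- the vertex set: one block `F i` for each `i : I`, one block `ZMod (ℓ j)` for each `j : J` -/
abbrev VB : Type := (Σ i : I, F i) ⊕ (Σ j : J, ZMod (ℓ j))

variable {F ℓ}

/-- the block of a vertex -/
def blk : VB F ℓ → I ⊕ J := Sum.map Sigma.fst Sigma.fst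

/-- independent translations of the field blocks -/
def tra (t : ∀ i, F i) : Equiv.Perm (VB F ℓ) :=
  Equiv.sumCongr (Equiv.sigmaCongrRight fun i => Equiv.addRight (t i)) (Equiv.refl _)

/-- `x ↦ g_i x` on the block `F i`, `y ↦ y + v_j` on the block `ZMod (ℓ j)` -/
def cycv (g : ∀ i, (F i)ˣ) (v : ∀ j, ZMod (ℓ j)) : Equiv.Perm (VB F ℓ) :=
  Equiv.sumCongr (Equiv.sigmaCongrRight fun i => Units.mulLeft (g i))
    (Equiv.sigmaCongrRight fun j => Equiv.addRight (v j))

/-- `y ↦ w_j y` on the block `ZMod (ℓ j)` -/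
def mulv (w : ∀ j, (ZMod (ℓ j))ˣ) : Equiv.Perm (VB F ℓ) :=
  Equiv.sumCongr (Equiv.refl _) (Equiv.sigmaCongrRight fun j => Units.mulLeft (w j))

variable [DecidableEq I] [DecidableEq J]

/-- the invariant graph given by a graph on the blocks and sets of classes of differences -/
def gg (w : ∀ j, (ZMod (ℓ j))ˣ) (S : Finset (EV (I ⊕ J)))
    (T : ∀ j, Finset (Om (ℓ j) (w j))) : SimpleGraph (VB F ℓ) where
  Adj x y := (toG S).Adj (blk x) (blk y) ∨
    ∃ (j : J) (u v : ZMod (ℓ j)), x = Sum.inr ⟨j, u⟩ ∧ y = Sum.inr ⟨j, v⟩ ∧ (cg (w j) (T j)).Adj u v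
  symm := ⟨by
    rintro x y (h | ⟨j, u, v, hx, hy, h⟩)
    · exact Or.inl h.symm
    · exact Or.inr ⟨j, v, u, hy, hx, h.symm⟩⟩
  loopless := ⟨by
    rintro x (h | ⟨j, u, v, hx, hy, h⟩)
    · exact (toG S).loopless.irrefl _ h
    · rw [hx] at hy
      simp only [Sum.inr.injEq, Sigma.mk.injEq, heq_eq_eq, true_and] at hy
      subst hy
      exact (cg (w j) (T j)).loopless.irrefl _ h⟩

/-- the index set of the invariant graphs -/
abbrev Omg (w : ∀ j, (ZMod (ℓ j))ˣ) : Type := EV (I ⊕ J) ⊕ (Σ j : J, Om (ℓ j) (w j))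

/-- component `j` of a set of pairs -/
noncomputable def comp (w : ∀ j, (ZMod (ℓ j))ˣ) (T : Finset (Σ j : J, Om (ℓ j) (w j))) (j : J) :
    Finset (Om (ℓ j) (w j)) := T.preimage (fun ω : Om (ℓ j) (w j) => (⟨j, ω⟩ : Σ j : J, Om (ℓ j) (w j)))
      (fun _ _ _ _ h => eq_of_heq (Sigma.mk.inj h).2)

/-- the invariant graph of an index set -/
noncomputable def gA (w : ∀ j, (ZMod (ℓ j))ˣ) (A : Finset (Omg (I := I) w)) :
    SimpleGraph (VB F ℓ) := gg w A.toLeft (comp w A.toRight)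

end VB

section Count

open Classical in
/-- the signed number of graphs with edges inside `K` whose `b`-fold blow-up has no member -/
noncomputable def sc (𝓕 : Fam) (b : ℕ) {B : Type} [Fintype B] [DecidableEq B] (K : Finset B) : ℤ :=
  ∑ S : Finset (EV B), if (∀ e ∈ S, ∀ x ∈ e.1, x ∈ K) ∧ ¬ Has 𝓕 (blow (toG S) b)
    then (-1) ^ S.card else 0

end Count

end Pool.Agent.H98R2.Nb
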