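import Pool.Agent.H98R2.Nb.Defs

set_option autoImplicit false

/-! N1 (helper169): the signed number of chains equals the signed number of members. -/

namespace Pool.Agent.H98R2.Nb

open Finset Pool.Agent.H98R2.Ev

open Classical in
theorem n1_main {Ω : Type} [Fintype Ω] [DecidableEq Ω] : ∀ (m : ℕ) (Q : Finset (Finset Ω)),
    Q.card = m → (∀ A ∈ Q, A.Nonempty) →
    (∀ A B : Finset Ω, A.Nonempty → A ⊆ B → B ∈ Q → A ∈ Q) →
    ∑ σ ∈ Q.powerset.filter (fun σ : Finset (Finset Ω) => IsChain (· ≤ ·) (σ : Set (Finset Ω))),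
      (-1 : ℤ) ^ σ.card = 1 + ∑ A ∈ Q, (-1 : ℤ) ^ A.card := by
  intro m
  induction m using Nat.strong_induction_on with
  | _ m ih =>
    intro Q hm hne hdown
    rcases Q.eq_empty_or_nonempty with rfl | hQ
    · rw [Finset.powerset_empty, Finset.filter_singleton, if_pos (by simp)]
      simp
    · obtain ⟨M, hM, hmax⟩ := Finset.exists_max_image Q (fun A : Finset Ω => A.card) hQ
      have hmax' : ∀ B ∈ Q, M ⊆ B → B = M := by
        intro B hB hMB
        exact (Finset.eq_of_subset_of_card_le hMB (hmax B hB)).symm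
      set Q' := Q.erase M with hQ'
      have hMQ' : M ∉ Q' := Finset.notMem_erase M Q
      have hins : insert M Q' = Q := Finset.insert_erase hM
      set R := Q'.filter (fun B => B ⊆ M) with hR
      have hcQ' : Q'.card < m := by
        rw [← hm]
        exact Finset.card_erase_lt_of_mem hM
      have hcR : R.card < m := lt_of_le_of_lt (Finset.card_filter_le _ _) hcQ'
      have ih1 := ih Q'.card hcQ' Q' rfl (fun A hA => hne A (Finset.mem_of_mem_erase hA)) (by
        intro A B hA hAB hB
        rw [hQ', Finset.mem_erase] at hB ⊢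
        refine ⟨?_, hdown A B hA hAB hB.2⟩
        rintro rfl
        exact hB.1 (hmax' B hB.2 hAB))
      have ih2 := ih R.card hcR R rfl
        (fun A hA => hne A (Finset.mem_of_mem_erase (Finset.mem_filter.1 hA).1)) (by
        intro A B hA hAB hB
        rw [hR, Finset.mem_filter, hQ', Finset.mem_erase] at hB ⊢
        refine ⟨⟨?_, hdown A B hA hAB hB.1.2⟩, hAB.trans hB.2⟩
        rintro rfl
        exact hB.1.1 (hmax' B hB.1.2 hAB))
      have hRe : R = (M.powerset.erase ∅).erase M := by
        ext B
        rw [hR, Finset.mem_filter, hQ', Finset.mem_erase, Finset.mem_erase, Finset.mem_erase,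
          Finset.mem_powerset]
        constructor
        · rintro ⟨⟨h1, h2⟩, h3⟩
          exact ⟨h1, (hne B h2).ne_empty, h3⟩
        · rintro ⟨h1, h2, h3⟩
          exact ⟨⟨h1, hdown B M (Finset.nonempty_iff_ne_empty.2 h2) h3 hM⟩, h3⟩
      have hMne : M ≠ ∅ := (hne M hM).ne_empty
      have hRs : 1 + ∑ A ∈ R, (-1 : ℤ) ^ A.card = - (-1 : ℤ) ^ M.card := by
        have e1 := Finset.sum_powerset_neg_one_pow_card_of_nonempty (hne M hM)
        have e2 := Finset.add_sum_erase M.powerset (fun A : Finset Ω => (-1 : ℤ) ^ A.card)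
          (Finset.empty_mem_powerset M)
        have e3 := Finset.add_sum_erase (M.powerset.erase ∅) (fun A : Finset Ω => (-1 : ℤ) ^ A.card)
          (a := M) (Finset.mem_erase.2 ⟨hMne, Finset.mem_powerset_self M⟩)
        rw [← hRe] at e3
        simp only [Finset.card_empty, pow_zero] at e2
        linarith
      have hsecond : ∑ τ ∈ Q'.powerset.filter (fun τ : Finset (Finset Ω) =>
          IsChain (· ≤ ·) ((insert M τ : Finset (Finset Ω)) : Set (Finset Ω))),
          (-1 : ℤ) ^ (insert M τ).card = (-1 : ℤ) ^ M.card := by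
        have hf : Q'.powerset.filter (fun τ : Finset (Finset Ω) =>
            IsChain (· ≤ ·) ((insert M τ : Finset (Finset Ω)) : Set (Finset Ω))) =
            R.powerset.filter (fun τ : Finset (Finset Ω) =>
              IsChain (· ≤ ·) (τ : Set (Finset Ω))) := by
          ext τ
          rw [Finset.mem_filter, Finset.mem_filter, Finset.mem_powerset, Finset.mem_powerset,
            Finset.coe_insert]
          constructor
          · rintro ⟨h1, h2⟩
            refine ⟨?_, h2.mono (Set.subset_insert _ _)⟩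
            intro B hB
            rw [hR, Finset.mem_filter]
            refine ⟨h1 hB, ?_⟩
            have hBne : B ≠ M := fun h => hMQ' (h ▸ h1 hB)
            rcases h2 (Set.mem_insert_of_mem _ (Finset.mem_coe.2 hB)) (Set.mem_insert _ _) hBne
              with h3 | h3
            · exact h3
            · exact absurd (hmax' B (Finset.mem_of_mem_erase (h1 hB)) h3) hBne
          · rintro ⟨h1, h2⟩
            refine ⟨h1.trans (Finset.filter_subset _ _), ?_⟩
            apply h2.insert
            intro B hB _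
            exact Or.inr (Finset.mem_filter.1 (h1 (Finset.mem_coe.1 hB))).2
        rw [hf]
        have hstep : ∑ τ ∈ R.powerset.filter (fun τ : Finset (Finset Ω) =>
            IsChain (· ≤ ·) (τ : Set (Finset Ω))), (-1 : ℤ) ^ (insert M τ).card =
            ∑ τ ∈ R.powerset.filter (fun τ : Finset (Finset Ω) =>
              IsChain (· ≤ ·) (τ : Set (Finset Ω))), -(-1 : ℤ) ^ τ.card := by
          refine Finset.sum_congr rfl ?_
          intro τ hτ
          have hτR := Finset.mem_powerset.1 (Finset.mem_filter.1 hτ).1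
          have hMτ : M ∉ τ := fun h => hMQ' (Finset.mem_filter.1 (hτR h)).1
          rw [Finset.card_insert_of_notMem hMτ, pow_succ]
          ring
        rw [hstep, Finset.sum_neg_distrib, ih2, hRs, neg_neg]
      have hsum : ∑ σ ∈ Q.powerset.filter (fun σ : Finset (Finset Ω) =>
          IsChain (· ≤ ·) (σ : Set (Finset Ω))), (-1 : ℤ) ^ σ.card =
          ∑ σ ∈ Q'.powerset.filter (fun σ : Finset (Finset Ω) =>
            IsChain (· ≤ ·) (σ : Set (Finset Ω))), (-1 : ℤ) ^ σ.card +
          ∑ τ ∈ Q'.powerset.filter (fun τ : Finset (Finset Ω) =>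
            IsChain (· ≤ ·) ((insert M τ : Finset (Finset Ω)) : Set (Finset Ω))),
            (-1 : ℤ) ^ (insert M τ).card := by
        rw [Finset.sum_filter, Finset.sum_filter, Finset.sum_filter, ← hins,
          Finset.sum_powerset_insert hMQ']
      rw [hsum, ih1, hsecond, ← Finset.add_sum_erase Q _ hM]
      ring

open Classical in
/-- N1 -/
theorem chain_sum {Ω : Type} [Fintype Ω] [DecidableEq Ω] (𝒟 : Finset Ω → Prop)
    (hdown : ∀ A B, A ⊆ B → 𝒟 B → 𝒟 A) (h0 : 𝒟 ∅) :
    ∑ σ ∈ univ.filter (fun σ : Finset (Finset Ω) =>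
        Ch (univ.filter (fun A : Finset Ω => A.Nonempty ∧ 𝒟 A)) σ), (-1 : ℤ) ^ σ.card =
      ∑ A ∈ univ.filter (fun A : Finset Ω => 𝒟 A), (-1 : ℤ) ^ A.card := by
  set Q := univ.filter (fun A : Finset Ω => A.Nonempty ∧ 𝒟 A) with hQ
  have h1 := n1_main Q.card Q rfl (fun A hA => (Finset.mem_filter.1 hA).2.1) (by
    intro A B hA hAB hB
    rw [hQ, Finset.mem_filter] at hB ⊢
    exact ⟨Finset.mem_univ _, hA, hdown A B hAB hB.2.2⟩)
  have h2 : univ.filter (fun σ : Finset (Finset Ω) => Ch Q σ) =
      Q.powerset.filter (fun σ : Finset (Finset Ω) =>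
        IsChain (· ≤ ·) (σ : Set (Finset Ω))) := by
    ext σ
    rw [Finset.mem_filter, Finset.mem_filter, Finset.mem_powerset]
    constructor
    · rintro ⟨_, h3⟩
      exact h3
    · intro h3
      exact ⟨Finset.mem_univ _, h3⟩
  have h3 : univ.filter (fun A : Finset Ω => 𝒟 A) = insert ∅ Q := by
    ext A
    rw [Finset.mem_insert, hQ, Finset.mem_filter, Finset.mem_filter]
    constructor
    · rintro ⟨_, h⟩
      rcases A.eq_empty_or_nonempty with rfl | hA
      · exact Or.inl rfl
      · exact Or.inr ⟨Finset.mem_univ _, hA, h⟩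
    · rintro (rfl | ⟨_, _, h⟩)
      · exact ⟨Finset.mem_univ _, h0⟩
      · exact ⟨Finset.mem_univ _, h⟩
  have h4 : (∅ : Finset Ω) ∉ Q := by
    intro h
    exact Finset.not_nonempty_empty (Finset.mem_filter.1 h).2.1
  rw [h2, h1, h3, Finset.sum_insert h4]
  simp

end Pool.Agent.H98R2.Nb
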