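import Pool.Agent.H98R2.Nb.Defs
import Pool.Agent.H98R2.Ev.T11
import Pool.Agent.H98R2.Ev.T15
import Pool.Agent.H98R2.Nb.N1
import Pool.Agent.H98R2.Nb.N2

set_option autoImplicit false

/-! N3: the counting criterion for graphs. -/

namespace Pool.Agent.H98R2.Nb

open Finset Pool.Agent.H98R2.Ev

namespace N3

theorem inv_iff {V : Type} [DecidableEq V] (s : Equiv.Perm V) (S : Finset (EV V)) :
    S.map (ep s).toEmbedding = S ↔ Inv s (toG S) := by
  constructor
  · intro h x y hxy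
    rw [toG_adj15] at hxy ⊢
    exact (RR_perm S s h x y).2 hxy
  · intro h
    apply Finset.eq_of_subset_of_card_le
    · intro e he
      obtain ⟨⟨x, hx⟩, hxS, rfl⟩ := mem_map.1 he
      induction x using Sym2.ind with
      | _ u v =>
        have h1 : (toG S).Adj u v := (toG_adj15 S u v).2 ⟨hx, hxS⟩
        have h2 := h u v h1
        rw [toG_adj15] at h2
        obtain ⟨h3, h4⟩ := h2
        have h5 : (ep s) ⟨s(u, v), hx⟩ = ⟨s(s u, s v), h3⟩ := by
          apply Subtype.ext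
          rfl
        show (ep s) ⟨s(u, v), hx⟩ ∈ S
        rw [h5]
        exact h4
    · rw [card_map]

theorem toG_map {V : Type} [DecidableEq V] (s : Equiv.Perm V) (S : Finset (EV V)) :
    toG (S.map (ep s).toEmbedding) = (toG S).map s.toEmbedding := toG_map15 s S

theorem inv_map {V : Type} (s c : Equiv.Perm V) (G : SimpleGraph V)
    (h : Inv (c⁻¹ * s * c) G) : Inv s (G.map c.toEmbedding) := by
  intro x y hxy
  rw [SimpleGraph.map_adj] at hxy
  obtain ⟨u, v, huv, rfl, rfl⟩ := hxy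
  have h1 := h u v huv
  rw [SimpleGraph.map_adj]
  refine ⟨_, _, h1, ?_, ?_⟩
  · simp
  · simp

open Classical in
/-- the edges of a graph -/
noncomputable def ES {V : Type} [Fintype V] [DecidableEq V] (G : SimpleGraph V) :
    Finset (EV V) := univ.filter (fun e : EV V => e.1 ∈ G.edgeSet)

theorem mem_ES {V : Type} [Fintype V] [DecidableEq V] (G : SimpleGraph V) (e : EV V) :
    e ∈ ES G ↔ e.1 ∈ G.edgeSet := by
  unfold ES
  simp

theorem toG_ES {V : Type} [Fintype V] [DecidableEq V] (G : SimpleGraph V) : toG (ES G) = G := by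
  ext a b
  rw [toG_adj15]
  constructor
  · rintro ⟨h, h1⟩
    rw [mem_ES] at h1
    exact h1
  · intro h
    have hd : ¬ s(a, b).IsDiag := by
      rw [Sym2.mk_isDiag_iff]
      exact h.ne
    exact ⟨hd, (mem_ES G ⟨s(a, b), hd⟩).2 h⟩

theorem ES_toG {V : Type} [Fintype V] [DecidableEq V] (S : Finset (EV V)) : ES (toG S) = S := by
  ext ⟨e, he⟩
  rw [mem_ES]
  induction e using Sym2.ind with
  | _ u v =>
    show (toG S).Adj u v ↔ _
    rw [toG_adj15]
    constructor
    · rintro ⟨h, h1⟩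
      exact h1
    · intro h
      exact ⟨he, h⟩

theorem ES_mono {V : Type} [Fintype V] [DecidableEq V] (G H : SimpleGraph V) :
    ES G ⊆ ES H ↔ G ≤ H := by
  constructor
  · intro h
    rw [← toG_ES G, ← toG_ES H]
    exact toG_mono15 h
  · intro h e he
    rw [mem_ES] at he ⊢
    exact SimpleGraph.edgeSet_mono h he

theorem toG_empty {V : Type} [DecidableEq V] : toG (∅ : Finset (EV V)) = ⊥ := by
  ext a b
  rw [toG_adj15]
  constructor
  · rintro ⟨h, h1⟩
    simp at h1
  · intro h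
    simp at h

end N3

open N3

open Classical in
/-- statement of N2 -/
def CountCrit : Prop := ∀ {E : Type} [DecidableEq E] [Fintype E] (D : Finset E → Prop)
    (_ : ∀ S T, S ⊆ T → D T → D S)
    (_ : NE univ D) (_ : D ∅) {ι : Type} [Fintype ι] (p q t : ℕ) [Fact p.Prime] [Fact q.Prime]
    (a : ι → Equiv.Perm E) (c h : Equiv.Perm E)
    (_ : ∀ i j, a i * a j = a j * a i) (_ : ∀ i, a i ^ p = 1) (_ : h ^ (q ^ t) = 1)
    (_ : ∀ i S, D S → D (S.map (a i).toEmbedding))
    (_ : ∀ S, D S → D (S.map c.toEmbedding))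
    (_ : ∀ S, D S → D (S.map h.toEmbedding))
    (_ : ∀ S : Finset E, (∀ i, S.map (a i).toEmbedding = S) →
      ∀ i, (S.map c.toEmbedding).map (a i).toEmbedding = S.map c.toEmbedding)
    (_ : ∀ S : Finset E, (∀ i, S.map (a i).toEmbedding = S) → S.map c.toEmbedding = S →
      (∀ i, (S.map h.toEmbedding).map (a i).toEmbedding = S.map h.toEmbedding) ∧
      (S.map h.toEmbedding).map c.toEmbedding = S.map h.toEmbedding)
    {Ω : Type} [Fintype Ω] [DecidableEq Ω] (g : Finset Ω → Finset E)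
    (_ : ∀ A B, g A ⊆ g B ↔ A ⊆ B)
    (_ : ∀ A, (∀ i, (g A).map (a i).toEmbedding = g A) ∧ (g A).map c.toEmbedding = g A ∧
      (g A).map h.toEmbedding = g A)
    (_ : ∀ S, D S → (∀ i, S.map (a i).toEmbedding = S) → S.map c.toEmbedding = S →
      S.map h.toEmbedding = S → ∃ A, g A = S),
    (q : ℤ) ∣ ∑ A ∈ univ.filter (fun A : Finset Ω => D (g A)), (-1 : ℤ) ^ A.card

open Classical in
/-- N3, from N2 -/
theorem graph_criterion_of (N2 : CountCrit) {V : Type} [Fintype V] [DecidableEq V]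
    (P : SimpleGraph V → Prop)
    (hdown : ∀ G G' : SimpleGraph V, G ≤ G' → P G' → P G)
    (hiso : ∀ (s : Equiv.Perm V) (G : SimpleGraph V), P G → P (G.map s.toEmbedding))
    (hbot : P ⊥) (hne : NE (univ : Finset (EV V)) (fun S => P (toG S)))
    {ι : Type} [Fintype ι] (p q t : ℕ) [Fact p.Prime] [Fact q.Prime]
    (a : ι → Equiv.Perm V) (c h : Equiv.Perm V)
    (hcomm : ∀ i j, a i * a j = a j * a i) (hap : ∀ i, a i ^ p = 1) (hht : h ^ (q ^ t) = 1)
    (hah : ∀ i, a i * h = h * a i)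
    (hac : ∀ G : SimpleGraph V, (∀ i, Inv (a i) G) → ∀ i, Inv (c⁻¹ * a i * c) G)
    (hch : ∀ G : SimpleGraph V, (∀ i, Inv (a i) G) → Inv c G → Inv (h⁻¹ * c * h) G)
    {Ω : Type} [Fintype Ω] [DecidableEq Ω] (g : Finset Ω → SimpleGraph V)
    (hg : ∀ A B, g A ≤ g B ↔ A ⊆ B)
    (hga : ∀ A i, Inv (a i) (g A)) (hgc : ∀ A, Inv c (g A)) (hgh : ∀ A, Inv h (g A))
    (hgs : ∀ G, P G → (∀ i, Inv (a i) G) → Inv c G → Inv h G → ∃ A, g A = G) :
    (q : ℤ) ∣ ∑ A : Finset Ω, if P (g A) then (-1 : ℤ) ^ A.card else 0 := by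
  have hD : ∀ (s : Equiv.Perm V) (S : Finset (EV V)), P (toG S) →
      P (toG (S.map (ep s).toEmbedding)) := by
    intro s S hS
    rw [toG_map]
    exact hiso s _ hS
  have key := N2 (E := EV V) (fun S => P (toG S)) (fun S T hST hT => hdown _ _ (toG_mono15 hST) hT)
    hne (by rw [toG_empty]; exact hbot) p q t (fun i => ep (a i)) (ep c) (ep h)
    (fun i j => by rw [← ep_mul, ← ep_mul, hcomm]) (fun i => by rw [← ep_pow, hap, ep_one])
    (by rw [← ep_pow, hht, ep_one]) (fun i => hD (a i)) (hD c) (hD h)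
    (by
      intro S hS i
      have h1 : ∀ i, Inv (a i) (toG S) := fun i => (inv_iff (a i) S).1 (hS i)
      rw [inv_iff, toG_map]
      exact inv_map _ _ _ (hac (toG S) h1 i))
    (by
      intro S hS hSc
      have h1 : ∀ i, Inv (a i) (toG S) := fun i => (inv_iff (a i) S).1 (hS i)
      have h2 : Inv c (toG S) := (inv_iff c S).1 hSc
      constructor
      · intro i
        rw [inv_iff, toG_map]
        apply inv_map
        have h3 : h⁻¹ * a i * h = a i := by
          rw [mul_assoc, hah, ← mul_assoc, inv_mul_cancel, one_mul]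
        rw [h3]
        exact h1 i
      · rw [inv_iff, toG_map]
        exact inv_map _ _ _ (hch (toG S) h1 h2))
    (fun A => ES (g A)) (fun A B => (ES_mono _ _).trans (hg A B))
    (by
      intro A
      refine ⟨fun i => ?_, ?_, ?_⟩
      · rw [inv_iff, toG_ES]
        exact hga A i
      · rw [inv_iff, toG_ES]
        exact hgc A
      · rw [inv_iff, toG_ES]
        exact hgh A)
    (by
      intro S hS h1 h2 h3
      obtain ⟨A, hA⟩ := hgs (toG S) hS (fun i => (inv_iff (a i) S).1 (h1 i))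
        ((inv_iff c S).1 h2) ((inv_iff h S).1 h3)
      refine ⟨A, ?_⟩
      show ES (g A) = S
      rw [hA, ES_toG])
  have e1 : ∑ A : Finset Ω, (if P (g A) then (-1 : ℤ) ^ A.card else 0) =
      ∑ A ∈ univ.filter (fun A : Finset Ω => P (toG (ES (g A)))), (-1 : ℤ) ^ A.card := by
    rw [Finset.sum_filter]
    apply Finset.sum_congr rfl
    intro A _
    rw [toG_ES]
  rw [e1]
  exact key

open Classical in
/-- N2 -/
theorem N3.count_criterion_full {E : Type} [DecidableEq E] [Fintype E] (D : Finset E → Prop)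
    (hdown : ∀ S T, S ⊆ T → D T → D S)
    (hne : NE univ D) (h0 : D ∅) {ι : Type} [Fintype ι] (p q t : ℕ) [Fact p.Prime] [Fact q.Prime]
    (a : ι → Equiv.Perm E) (c h : Equiv.Perm E)
    (hcomm : ∀ i j, a i * a j = a j * a i) (hap : ∀ i, a i ^ p = 1) (hq : h ^ (q ^ t) = 1)
    (hDa : ∀ i S, D S → D (S.map (a i).toEmbedding))
    (hDc : ∀ S, D S → D (S.map c.toEmbedding))
    (hDh : ∀ S, D S → D (S.map h.toEmbedding))
    (hca : ∀ S : Finset E, (∀ i, S.map (a i).toEmbedding = S) →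
      ∀ i, (S.map c.toEmbedding).map (a i).toEmbedding = S.map c.toEmbedding)
    (hha : ∀ S : Finset E, (∀ i, S.map (a i).toEmbedding = S) → S.map c.toEmbedding = S →
      (∀ i, (S.map h.toEmbedding).map (a i).toEmbedding = S.map h.toEmbedding) ∧
      (S.map h.toEmbedding).map c.toEmbedding = S.map h.toEmbedding)
    {Ω : Type} [Fintype Ω] [DecidableEq Ω] (g : Finset Ω → Finset E)
    (hg : ∀ A B, g A ⊆ g B ↔ A ⊆ B)
    (hgi : ∀ A, (∀ i, (g A).map (a i).toEmbedding = g A) ∧ (g A).map c.toEmbedding = g A ∧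
      (g A).map h.toEmbedding = g A)
    (hgs : ∀ S, D S → (∀ i, S.map (a i).toEmbedding = S) → S.map c.toEmbedding = S →
      S.map h.toEmbedding = S → ∃ A, g A = S) :
    (q : ℤ) ∣ ∑ A ∈ univ.filter (fun A : Finset Ω => D (g A)), (-1 : ℤ) ^ A.card :=
  count_criterion_of (fun {_Ω} _ _ 𝒟 h1 h2 => chain_sum 𝒟 h1 h2) D hdown hne h0 p q t a c h hcomm
    hap hq hDa hDc hDh hca hha g hg hgi hgs

open Classical in
/-- N3: the counting criterion for graphs -/
theorem graph_criterion {V : Type} [Fintype V] [DecidableEq V]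
    (P : SimpleGraph V → Prop)
    (hdown : ∀ G G' : SimpleGraph V, G ≤ G' → P G' → P G)
    (hiso : ∀ (s : Equiv.Perm V) (G : SimpleGraph V), P G → P (G.map s.toEmbedding))
    (hbot : P ⊥) (hne : NE (univ : Finset (EV V)) (fun S => P (toG S)))
    {ι : Type} [Fintype ι] (p q t : ℕ) [Fact p.Prime] [Fact q.Prime]
    (a : ι → Equiv.Perm V) (c h : Equiv.Perm V)
    (hcomm : ∀ i j, a i * a j = a j * a i) (hap : ∀ i, a i ^ p = 1) (hht : h ^ (q ^ t) = 1)
    (hah : ∀ i, a i * h = h * a i)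
    (hac : ∀ G : SimpleGraph V, (∀ i, Inv (a i) G) → ∀ i, Inv (c⁻¹ * a i * c) G)
    (hch : ∀ G : SimpleGraph V, (∀ i, Inv (a i) G) → Inv c G → Inv (h⁻¹ * c * h) G)
    {Ω : Type} [Fintype Ω] [DecidableEq Ω] (g : Finset Ω → SimpleGraph V)
    (hg : ∀ A B, g A ≤ g B ↔ A ⊆ B)
    (hga : ∀ A i, Inv (a i) (g A)) (hgc : ∀ A, Inv c (g A)) (hgh : ∀ A, Inv h (g A))
    (hgs : ∀ G, P G → (∀ i, Inv (a i) G) → Inv c G → Inv h G → ∃ A, g A = G) :
    (q : ℤ) ∣ ∑ A : Finset Ω, if P (g A) then (-1 : ℤ) ^ A.card else 0 :=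
  graph_criterion_of (fun {_E} _ _ D h1 h2 h3 {_ι} _ p q t _ _ a c h h4 h5 h6 h7 h8 h9 h10 h11 {_Ω} _ _ g h12 h13 h14 =>
    N3.count_criterion_full D h1 h2 h3 p q t a c h h4 h5 h6 h7 h8 h9 h10 h11 g h12 h13 h14)
    P hdown hiso hbot hne p q t a c h hcomm hap hht hah hac hch g hg hga hgc hgh hgs

end Pool.Agent.H98R2.Nb
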