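import Mathlib
import Pool.Agent.H98R2.Nb.Defs

set_option autoImplicit false

namespace Pool.Agent.H98R2.Nb

open Finset Pool.Agent.H98R2.Ev

section N4a

variable {I J : Type} {F : I → Type} [∀ i, Field (F i)] {ℓ : J → ℕ}

theorem cycv_iter (g : ∀ i, (F i)ˣ) (G : SimpleGraph (VB F ℓ)) (hG : Inv (cycv g (fun _ => 1)) G)
    (e : ℕ) : Inv (cycv (fun i => g i ^ e) (fun j => (e : ZMod (ℓ j)))) G := by
  induction e with
  | zero =>
    intro x y h
    have hx : ∀ z : VB F ℓ, (cycv (fun i => g i ^ 0) (fun j => ((0 : ℕ) : ZMod (ℓ j)))) z = z := by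
      rintro (⟨i, a⟩ | ⟨j, b⟩)
      · simp [cycv]
      · simp [cycv]
    rw [hx, hx]
    exact h
  | succ e ih =>
    intro x y h
    have hx : ∀ z : VB F ℓ, (cycv (fun i => g i ^ (e + 1)) (fun j => ((e + 1 : ℕ) : ZMod (ℓ j)))) z =
        cycv g (fun _ => 1) ((cycv (fun i => g i ^ e) (fun j => (e : ZMod (ℓ j)))) z) := by
      rintro (⟨i, a⟩ | ⟨j, b⟩)
      · simp [cycv, pow_succ', mul_assoc]
      · simp [cycv, add_assoc]
    rw [hx, hx]
    exact hG _ _ (ih _ _ h)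

variable [Fintype J] [∀ j, Fact (ℓ j).Prime]

/-- N4a -/
theorem inv_cycv (N₀ : ℕ) (hN₀ : 0 < N₀) (hinj : Function.Injective ℓ)
    (hcop : ∀ j, Nat.Coprime N₀ (ℓ j)) (g : ∀ i, (F i)ˣ) (hg : ∀ i, g i ^ N₀ = 1)
    (G : SimpleGraph (VB F ℓ)) (hG : Inv (cycv g (fun _ => 1)) G) (u : ℕ)
    (v : ∀ j, ZMod (ℓ j)) : Inv (cycv (fun i => g i ^ u) v) G := by
  classical
  let a : Option J → ℕ := fun o => o.elim u (fun j => (v j).val)
  let s : Option J → ℕ := fun o => o.elim N₀ ℓ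
  have hp : ∀ j, (ℓ j).Prime := fun j => Fact.out
  obtain ⟨e, he⟩ := Nat.chineseRemainderOfFinset a s Finset.univ (by
      rintro (_ | j) -
      · exact hN₀.ne'
      · exact (hp j).ne_zero) (by
      rintro (_ | j) - (_ | k) - hne
      · exact absurd rfl hne
      · exact hcop k
      · exact (hcop j).symm
      · refine (Nat.coprime_primes (hp j) (hp k)).2 fun h => hne ?_
        rw [hinj h])
  have h1 : e ≡ u [MOD N₀] := he none (Finset.mem_univ _)
  have h2 : ∀ j, (e : ZMod (ℓ j)) = v j := by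
    intro j
    have h3 : e ≡ (v j).val [MOD ℓ j] := he (some j) (Finset.mem_univ _)
    have : NeZero (ℓ j) := ⟨(hp j).ne_zero⟩
    rw [(ZMod.natCast_eq_natCast_iff _ _ _).2 h3, ZMod.natCast_zmod_val]
  have h4 : ∀ i, g i ^ e = g i ^ u := by
    intro i
    rw [pow_eq_pow_iff_modEq]
    exact h1.of_dvd (orderOf_dvd_of_pow_eq_one (hg i))
  have h5 := cycv_iter g G hG e
  have h6 : (fun i => g i ^ e) = fun i => g i ^ u := funext h4
  have h7 : (fun j => (e : ZMod (ℓ j))) = v := funext h2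
  rwa [h6, h7] at h5

end N4a

end Pool.Agent.H98R2.Nb
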