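import Pool.Agent.H98R2.Nb.Defs
import Pool.Agent.H98R2.Nb.N4a

set_option autoImplicit false

/-! Task N4b: the invariant graphs. -/

namespace Pool.Agent.H98R2.Nb

open Finset Pool.Agent.H98R2.Ev

section VB

variable {I J : Type} {F : I → Type} [∀ i, Field (F i)] {ℓ : J → ℕ}

theorem n4b_tra_inl (t : ∀ i, F i) (i : I) (a : F i) :
    (tra t : Equiv.Perm (VB F ℓ)) (Sum.inl ⟨i, a⟩) = Sum.inl ⟨i, a + t i⟩ := rfl

theorem n4b_tra_inr (t : ∀ i, F i) (z : Σ j : J, ZMod (ℓ j)) :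
    (tra t : Equiv.Perm (VB F ℓ)) (Sum.inr z) = Sum.inr z := rfl

theorem n4b_cyc_inl (g : ∀ i, (F i)ˣ) (v : ∀ j, ZMod (ℓ j)) (i : I) (a : F i) :
    (cycv g v : Equiv.Perm (VB F ℓ)) (Sum.inl ⟨i, a⟩) = Sum.inl ⟨i, (g i : F i) * a⟩ := rfl

theorem n4b_cyc_inr (g : ∀ i, (F i)ˣ) (v : ∀ j, ZMod (ℓ j)) (j : J) (a : ZMod (ℓ j)) :
    (cycv g v : Equiv.Perm (VB F ℓ)) (Sum.inr ⟨j, a⟩) = Sum.inr ⟨j, a + v j⟩ := rfl

theorem n4b_mul_inr (w : ∀ j, (ZMod (ℓ j))ˣ) (j : J) (a : ZMod (ℓ j)) :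
    (mulv w : Equiv.Perm (VB F ℓ)) (Sum.inr ⟨j, a⟩) = Sum.inr ⟨j, (w j : ZMod (ℓ j)) * a⟩ := rfl

theorem n4b_toG {V : Type} [DecidableEq V] (S : Finset (EV V)) (a b : V) :
    (toG S).Adj a b ↔ ∃ h : ¬ (s(a, b) : Sym2 V).IsDiag, (⟨s(a, b), h⟩ : EV V) ∈ S := by
  unfold toG
  rw [SimpleGraph.fromEdgeSet_adj]
  constructor
  · rintro ⟨h, _⟩; exact h
  · intro h; exact ⟨h, fun hab => h.1 (by rw [hab]; exact Sym2.mk_isDiag_iff.2 rfl)⟩

variable [DecidableEq I] [DecidableEq J]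

/-- a vertex can be moved inside its block -/
theorem n4b_mv (G : SimpleGraph (VB F ℓ)) (ha : ∀ t : ∀ i, F i, Inv (tra t) G)
    (hc : ∀ v : ∀ j, ZMod (ℓ j), Inv (cycv (fun i => (1 : (F i)ˣ)) v) G)
    (x y x' : VB F ℓ) (hb : blk x' = blk x) (hxy : blk x ≠ blk y) (h : G.Adj x y) :
    G.Adj x' y := by
  rcases x with ⟨i, a⟩ | ⟨j, a⟩ <;> rcases x' with ⟨i', a'⟩ | ⟨j', a'⟩
  · simp only [blk, Sum.map_inl, Sum.inl.injEq] at hb
    subst hb
    have h1 := ha (Function.update 0 i' (a' - a)) _ _ h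
    rw [n4b_tra_inl, Function.update_self, add_sub_cancel] at h1
    rcases y with ⟨i2, b⟩ | z
    · have hne : i2 ≠ i' := fun h2 => hxy (by simp [blk, h2])
      rw [n4b_tra_inl, Function.update_of_ne hne] at h1
      simpa using h1
    · rwa [n4b_tra_inr] at h1
  · simp [blk] at hb
  · simp [blk] at hb
  · simp only [blk, Sum.map_inr, Sum.inr.injEq] at hb
    subst hb
    have h1 := hc (Function.update 0 j' (a' - a)) _ _ h
    rw [n4b_cyc_inr, Function.update_self, add_sub_cancel] at h1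
    rcases y with ⟨i, b⟩ | ⟨j2, b⟩
    · rw [n4b_cyc_inl] at h1
      simpa using h1
    · have hne : j2 ≠ j' := fun h2 => hxy (by simp [blk, h2])
      rw [n4b_cyc_inr, Function.update_of_ne hne] at h1
      simpa using h1

theorem n4b_full (G : SimpleGraph (VB F ℓ)) (ha : ∀ t : ∀ i, F i, Inv (tra t) G)
    (hc : ∀ v : ∀ j, ZMod (ℓ j), Inv (cycv (fun i => (1 : (F i)ˣ)) v) G)
    (x y x' y' : VB F ℓ) (hx : blk x' = blk x) (hy : blk y' = blk y) (hxy : blk x ≠ blk y)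
    (h : G.Adj x y) : G.Adj x' y' := by
  have h1 := n4b_mv G ha hc x y x' hx hxy h
  have h2 := n4b_mv G ha hc y x' y' hy (by rw [hx]; exact hxy.symm) h1.symm
  exact h2.symm

variable [Fintype J] [∀ j, Fact (ℓ j).Prime]

/-- adjacency inside a special block -/
theorem n4b_spec (w : ∀ j, (ZMod (ℓ j))ˣ) (G : SimpleGraph (VB F ℓ))
    (hc : ∀ v : ∀ j, ZMod (ℓ j), Inv (cycv (fun i => (1 : (F i)ˣ)) v) G)
    (hw : Inv (mulv w) G) (j : J) :
    ∃ T : Finset (Om (ℓ j) (w j)), ∀ u v : ZMod (ℓ j),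
      (cg (w j) T).Adj u v ↔ G.Adj (Sum.inr ⟨j, u⟩) (Sum.inr ⟨j, v⟩) := by
  classical
  have htr : ∀ u v s : ZMod (ℓ j), G.Adj (Sum.inr ⟨j, u⟩) (Sum.inr ⟨j, v⟩) →
      G.Adj (Sum.inr ⟨j, u + s⟩) (Sum.inr ⟨j, v + s⟩) := by
    intro u v s h
    have h1 := hc (Function.update 0 j s) _ _ h
    rwa [n4b_cyc_inr, n4b_cyc_inr, Function.update_self] at h1
  set P : ZMod (ℓ j) → Prop := fun d => G.Adj (Sum.inr ⟨j, 0⟩) (Sum.inr ⟨j, d⟩) with hP
  have hPw : ∀ d, P d → P ((w j : ZMod (ℓ j)) * d) := by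
    intro d hd
    have h1 := hw _ _ hd
    rwa [n4b_mul_inr, n4b_mul_inr, mul_zero] at h1
  have hPn : ∀ d, P d → P (-d) := by
    intro d hd
    have h1 := htr _ _ (-d) hd.symm
    rwa [add_neg_cancel, zero_add] at h1
  have hcl : ∀ h ∈ Subgroup.closure {w j, (-1 : (ZMod (ℓ j))ˣ)}, ∀ d : ZMod (ℓ j), P d →
      P ((h : ZMod (ℓ j)) * d) := by
    intro h hh
    induction hh using Subgroup.closure_induction with
    | mem x hx =>
      rcases hx with rfl | hx
      · exact hPw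
      · rw [Set.mem_singleton_iff] at hx
        subst hx
        intro d hd
        have := hPn d hd
        simpa using this
    | one => intro d hd; simpa using hd
    | mul x y _ _ hx hy =>
      intro d hd
      have := hx _ (hy d hd)
      rwa [Units.val_mul, mul_assoc]
    | inv x _ hx =>
      have hpow : ∀ m : ℕ, ∀ d : ZMod (ℓ j), P d → P (((x ^ m : (ZMod (ℓ j))ˣ) : ZMod (ℓ j)) * d) := by
        intro m
        induction m with
        | zero => intro d hd; simpa using hd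
        | succ m ih =>
          intro d hd
          have := ih _ (hx d hd)
          rwa [pow_succ, Units.val_mul, mul_assoc]
      have hinv : x⁻¹ = x ^ (orderOf x - 1) := by
        rw [inv_eq_iff_mul_eq_one, ← pow_succ', Nat.sub_add_cancel (orderOf_pos x),
          pow_orderOf_eq_one]
      rw [hinv]
      exact hpow _
  refine ⟨univ.filter (fun ω => ∃ d : (ZMod (ℓ j))ˣ, QuotientGroup.mk d = ω ∧ P d), fun u v => ?_⟩
  unfold cg
  simp only [mem_filter, mem_univ, true_and]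
  constructor
  · rintro ⟨_, d, hd, d', hd', hPd⟩
    have h1 : P d := by
      rw [QuotientGroup.eq] at hd'
      have h2 := hcl _ hd' _ hPd
      have h3 : (((d'⁻¹ * d : (ZMod (ℓ j))ˣ) : ZMod (ℓ j)) * (d' : ZMod (ℓ j))) = d := by
        rw [← Units.val_mul]
        congr 1
        rw [mul_comm, mul_inv_cancel_left]
      rwa [h3] at h2
    have h4 := htr _ _ u h1
    rw [zero_add, add_comm, ← hd] at h4
    exact h4
  · intro h
    have hne : u ≠ v := by
      rintro rfl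
      exact G.loopless.irrefl _ h
    have hd0 : v - u ≠ 0 := sub_ne_zero.2 hne.symm
    refine ⟨hne, Units.mk0 (v - u) hd0, by simp, Units.mk0 (v - u) hd0, rfl, ?_⟩
    have h4 := htr _ _ (-u) h
    rw [add_neg_cancel, ← sub_eq_add_neg] at h4
    exact h4

variable [Fintype I]

/-- N4b -/
theorem complete (N₀ : ℕ) (hN₀ : 0 < N₀) (hinj : Function.Injective ℓ)
    (hcop : ∀ j, Nat.Coprime N₀ (ℓ j)) (g : ∀ i, (F i)ˣ) (hg : ∀ i, g i ^ N₀ = 1)
    (w : ∀ j, (ZMod (ℓ j))ˣ) (G : SimpleGraph (VB F ℓ))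
    (ha : ∀ t : ∀ i, F i, Inv (tra t) G) (hc : Inv (cycv g (fun _ => 1)) G)
    (hw : Inv (mulv w) G)
    (hint : ∀ (i : I) (x y : F i), ¬ G.Adj (Sum.inl ⟨i, x⟩) (Sum.inl ⟨i, y⟩)) :
    ∃ A : Finset (Omg (I := I) w), gA w A = G := by
  classical
  have hc' : ∀ v : ∀ j, ZMod (ℓ j), Inv (cycv (fun i => (1 : (F i)ˣ)) v) G := by
    intro v
    have h1 := inv_cycv N₀ hN₀ hinj hcop g hg G hc 0 v
    simpa using h1
  have hT := fun j => n4b_spec w G hc' hw j
  choose T hT using hT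
  set S : Finset (EV (I ⊕ J)) := univ.filter (fun e => ∃ x y : VB F ℓ,
    s(blk x, blk y) = e.1 ∧ G.Adj x y) with hS
  refine ⟨disjSum S (univ.sigma T), ?_⟩
  have hcomp : ∀ j, comp w (univ.sigma T) j = T j := by
    intro j
    ext ω
    unfold comp
    refine Finset.mem_preimage.trans ?_
    rw [Finset.mem_sigma]
    exact ⟨fun h => h.2, fun h => ⟨mem_univ _, h⟩⟩
  have hSG : ∀ x y : VB F ℓ, blk x ≠ blk y → ((toG S).Adj (blk x) (blk y) ↔ G.Adj x y) := by
    intro x y hxy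
    rw [n4b_toG]
    constructor
    · rintro ⟨hd, h⟩
      rw [hS, mem_filter] at h
      obtain ⟨_, x', y', hxy', hadj⟩ := h
      simp only [Sym2.eq_iff] at hxy'
      rcases hxy' with ⟨h1, h2⟩ | ⟨h1, h2⟩
      · exact n4b_full G ha hc' x' y' x y h1.symm h2.symm (by rw [h1, h2]; exact hxy) hadj
      · exact n4b_full G ha hc' y' x' x y h2.symm h1.symm (by rw [h1, h2]; exact hxy) hadj.symm
    · intro h
      refine ⟨fun hd => hxy (Sym2.mk_isDiag_iff.1 hd), ?_⟩
      rw [hS, mem_filter]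
      exact ⟨mem_univ _, x, y, rfl, h⟩
  ext x y
  simp only [gA, gg, toLeft_disjSum, toRight_disjSum, hcomp]
  by_cases hxy : blk x = blk y
  · have h0 : ¬ (toG S).Adj (blk x) (blk y) := by
      rw [hxy]
      exact (toG S).loopless.irrefl _
    rcases x with ⟨i, a⟩ | ⟨j, a⟩ <;> rcases y with ⟨i', b⟩ | ⟨j', b⟩
    · simp only [blk, Sum.map_inl, Sum.inl.injEq] at hxy
      subst hxy
      constructor
      · rintro (h | ⟨j, u, v, h, _⟩)
        · exact absurd h h0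
        · cases h
      · intro h
        exact absurd h (hint i a b)
    · simp [blk] at hxy
    · simp [blk] at hxy
    · simp only [blk, Sum.map_inr, Sum.inr.injEq] at hxy
      subst hxy
      constructor
      · rintro (h | ⟨j', u, v, h1, h2, h3⟩)
        · exact absurd h h0
        · simp only [Sum.inr.injEq] at h1 h2
          cases h1
          cases h2
          exact (hT _ _ _).1 h3
      · intro h
        exact Or.inr ⟨j, a, b, rfl, rfl, (hT _ _ _).2 h⟩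
  · rw [hSG x y hxy]
    constructor
    · rintro (h | ⟨j, u, v, h1, h2, _⟩)
      · exact h
      · exact absurd (by rw [h1, h2]; rfl) hxy
    · exact Or.inl

end VB

end Pool.Agent.H98R2.Nb
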