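import Mathlib
import Pool.Agent.H98R2.Nb.Defs

set_option autoImplicit false
set_option linter.unusedSectionVars false

/-! Task N4d (helper793): identities between the permutations. -/

namespace Pool.Agent.H98R2.Nb

open Finset Pool.Agent.H98R2.Ev

section VB
variable {I J : Type} {F : I → Type} [∀ i, Field (F i)] {ℓ : J → ℕ}

theorem N4d_tra_inl (t : ∀ i, F i) (i : I) (u : F i) :
    (tra t : Equiv.Perm (VB F ℓ)) (Sum.inl ⟨i, u⟩) = Sum.inl ⟨i, u + t i⟩ := rfl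

theorem N4d_tra_inr (t : ∀ i, F i) (y : Σ j : J, ZMod (ℓ j)) :
    (tra t : Equiv.Perm (VB F ℓ)) (Sum.inr y) = Sum.inr y := rfl

theorem N4d_cycv_inl (g : ∀ i, (F i)ˣ) (v : ∀ j, ZMod (ℓ j)) (i : I) (u : F i) :
    (cycv g v : Equiv.Perm (VB F ℓ)) (Sum.inl ⟨i, u⟩) = Sum.inl ⟨i, (g i : F i) * u⟩ := rfl

theorem N4d_cycv_inr (g : ∀ i, (F i)ˣ) (v : ∀ j, ZMod (ℓ j)) (j : J) (u : ZMod (ℓ j)) :
    (cycv g v : Equiv.Perm (VB F ℓ)) (Sum.inr ⟨j, u⟩) = Sum.inr ⟨j, u + v j⟩ := rfl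

theorem N4d_mulv_inl (w : ∀ j, (ZMod (ℓ j))ˣ) (y : Σ i : I, F i) :
    (mulv w : Equiv.Perm (VB F ℓ)) (Sum.inl y) = Sum.inl y := rfl

theorem N4d_mulv_inr (w : ∀ j, (ZMod (ℓ j))ˣ) (j : J) (u : ZMod (ℓ j)) :
    (mulv w : Equiv.Perm (VB F ℓ)) (Sum.inr ⟨j, u⟩) =
      Sum.inr ⟨j, ((w j : (ZMod (ℓ j))ˣ) : ZMod (ℓ j)) * u⟩ := rfl

theorem tra_comm (s t : ∀ i, F i) :
    (tra s : Equiv.Perm (VB F ℓ)) * tra t = tra t * tra s := by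
  apply Equiv.ext
  rintro (⟨i, u⟩ | y)
  · rw [Equiv.Perm.mul_apply, Equiv.Perm.mul_apply, N4d_tra_inl, N4d_tra_inl, N4d_tra_inl,
      N4d_tra_inl, add_right_comm]
  · rw [Equiv.Perm.mul_apply, Equiv.Perm.mul_apply, N4d_tra_inr, N4d_tra_inr, N4d_tra_inr]

theorem tra_sq [∀ i, CharP (F i) 2] (t : ∀ i, F i) :
    (tra t : Equiv.Perm (VB F ℓ)) ^ 2 = 1 := by
  apply Equiv.ext
  rw [pow_two]
  rintro (⟨i, u⟩ | y)
  · rw [Equiv.Perm.mul_apply, N4d_tra_inl, N4d_tra_inl, add_assoc, CharTwo.add_self_eq_zero,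
      add_zero, Equiv.Perm.one_apply]
  · rw [Equiv.Perm.mul_apply, N4d_tra_inr, N4d_tra_inr, Equiv.Perm.one_apply]

theorem N4d_mulv_pow_inl (w : ∀ j, (ZMod (ℓ j))ˣ) (y : Σ i : I, F i) (m : ℕ) :
    ((mulv w : Equiv.Perm (VB F ℓ)) ^ m) (Sum.inl y) = Sum.inl y := by
  induction m with
  | zero => simp
  | succ m ih => rw [pow_succ', Equiv.Perm.mul_apply, ih, N4d_mulv_inl]

theorem N4d_mulv_pow_inr (w : ∀ j, (ZMod (ℓ j))ˣ) (j : J) (u : ZMod (ℓ j)) (m : ℕ) :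
    ((mulv w : Equiv.Perm (VB F ℓ)) ^ m) (Sum.inr ⟨j, u⟩) =
      Sum.inr ⟨j, ((w j ^ m : (ZMod (ℓ j))ˣ) : ZMod (ℓ j)) * u⟩ := by
  induction m with
  | zero => simp
  | succ m ih =>
    rw [pow_succ', Equiv.Perm.mul_apply, ih, N4d_mulv_inr, pow_succ', Units.val_mul, mul_assoc]

theorem mulv_pow (w : ∀ j, (ZMod (ℓ j))ˣ) (m : ℕ) (hw : ∀ j, w j ^ m = 1) :
    (mulv w : Equiv.Perm (VB F ℓ)) ^ m = 1 := by
  apply Equiv.ext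
  rintro (y | ⟨j, u⟩)
  · rw [N4d_mulv_pow_inl, Equiv.Perm.one_apply]
  · rw [N4d_mulv_pow_inr, Equiv.Perm.one_apply, hw, Units.val_one, one_mul]

theorem tra_mulv (t : ∀ i, F i) (w : ∀ j, (ZMod (ℓ j))ˣ) :
    (tra t : Equiv.Perm (VB F ℓ)) * mulv w = mulv w * tra t := by
  apply Equiv.ext
  rintro (⟨i, u⟩ | ⟨j, u⟩)
  · rw [Equiv.Perm.mul_apply, Equiv.Perm.mul_apply, N4d_mulv_inl, N4d_tra_inl, N4d_mulv_inl]
  · rw [Equiv.Perm.mul_apply, Equiv.Perm.mul_apply, N4d_mulv_inr, N4d_tra_inr, N4d_tra_inr,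
      N4d_mulv_inr]

theorem cycv_tra (g : ∀ i, (F i)ˣ) (v : ∀ j, ZMod (ℓ j)) (t : ∀ i, F i) :
    (cycv g v : Equiv.Perm (VB F ℓ))⁻¹ * tra t * cycv g v =
      tra (fun i => (((g i)⁻¹ : (F i)ˣ) : F i) * t i) := by
  rw [mul_assoc, inv_mul_eq_iff_eq_mul]
  apply Equiv.ext
  rintro (⟨i, u⟩ | ⟨j, u⟩)
  · rw [Equiv.Perm.mul_apply, Equiv.Perm.mul_apply, N4d_cycv_inl, N4d_tra_inl, N4d_tra_inl,
      N4d_cycv_inl, mul_add, Units.mul_inv_cancel_left]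
  · rw [Equiv.Perm.mul_apply, Equiv.Perm.mul_apply, N4d_cycv_inr, N4d_tra_inr, N4d_tra_inr,
      N4d_cycv_inr]

theorem mulv_cycv (g : ∀ i, (F i)ˣ) (v : ∀ j, ZMod (ℓ j)) (w : ∀ j, (ZMod (ℓ j))ˣ) :
    (mulv w : Equiv.Perm (VB F ℓ))⁻¹ * cycv g v * mulv w =
      cycv g (fun j => (((w j)⁻¹ : (ZMod (ℓ j))ˣ) : ZMod (ℓ j)) * v j) := by
  rw [mul_assoc, inv_mul_eq_iff_eq_mul]
  apply Equiv.ext
  rintro (⟨i, u⟩ | ⟨j, u⟩)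
  · rw [Equiv.Perm.mul_apply, Equiv.Perm.mul_apply, N4d_mulv_inl, N4d_cycv_inl, N4d_cycv_inl,
      N4d_mulv_inl]
  · rw [Equiv.Perm.mul_apply, Equiv.Perm.mul_apply, N4d_mulv_inr, N4d_cycv_inr, N4d_cycv_inr,
      N4d_mulv_inr, mul_add, Units.mul_inv_cancel_left]

end VB

end Pool.Agent.H98R2.Nb
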