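import Pool.Agent.H98R2.Nb.Defs

set_option autoImplicit false

/-! N5a: an edge inside a field block gives everything. -/

namespace Pool.Agent.H98R2.Nb

open Finset Pool.Agent.H98R2.Ev

variable {I J : Type} {F : I → Type} [∀ i, Field (F i)] {ℓ : J → ℕ}

private theorem n5a_tra [DecidableEq I] (G : SimpleGraph (VB F ℓ))
    (ha : ∀ t : ∀ i, F i, Inv (tra t) G) (i : I) (x y t : F i)
    (hxy : G.Adj (Sum.inl ⟨i, x⟩) (Sum.inl ⟨i, y⟩)) :
    G.Adj (Sum.inl ⟨i, x + t⟩) (Sum.inl ⟨i, y + t⟩) := by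
  have h := ha (Function.update (fun _ => 0) i t) _ _ hxy
  have e : ∀ z : F i, (tra (Function.update (fun _ => 0) i t) : Equiv.Perm (VB F ℓ))
      (Sum.inl ⟨i, z⟩) = Sum.inl ⟨i, z + t⟩ := by
    intro z
    show Sum.inl (⟨i, z + Function.update (fun _ => 0) i t i⟩ : Σ i : I, F i) = _
    rw [Function.update_self]
  rw [e, e] at h
  exact h

private theorem n5a_cyc (g : ∀ i, (F i)ˣ) (G : SimpleGraph (VB F ℓ))
    (hc : Inv (cycv g (fun _ => 1)) G) (i : I) (x y : F i) (u : ℕ)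
    (hxy : G.Adj (Sum.inl ⟨i, x⟩) (Sum.inl ⟨i, y⟩)) :
    G.Adj (Sum.inl ⟨i, ((g i ^ u : (F i)ˣ) : F i) * x⟩)
      (Sum.inl ⟨i, ((g i ^ u : (F i)ˣ) : F i) * y⟩) := by
  induction u with
  | zero => simpa using hxy
  | succ u ih =>
    have h := hc _ _ ih
    have e : ∀ z : F i, (cycv g (fun _ => 1) : Equiv.Perm (VB F ℓ))
        (Sum.inl ⟨i, ((g i ^ u : (F i)ˣ) : F i) * z⟩) =
        Sum.inl ⟨i, ((g i ^ (u + 1) : (F i)ˣ) : F i) * z⟩ := by
      intro z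
      show Sum.inl (⟨i, (g i : F i) * (((g i ^ u : (F i)ˣ) : F i) * z)⟩ : Σ i : I, F i) = _
      rw [pow_succ', Units.val_mul, mul_assoc]
    rw [e, e] at h
    exact h

variable [Fintype J] [∀ j, Fact (ℓ j).Prime]

variable [Fintype I] [DecidableEq I] [DecidableEq J]

/-- N5a -/
theorem has_heavy (𝓕 : Fam) (F₀ : Σ k : ℕ, SimpleGraph (Fin k)) (hF₀ : F₀ ∈ 𝓕)
    (g : ∀ i, (F i)ˣ) (hgen : ∀ i (x : (F i)ˣ), ∃ u : ℕ, x = g i ^ u)
    (G : SimpleGraph (VB F ℓ)) (ha : ∀ t : ∀ i, F i, Inv (tra t) G)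
    (hc : Inv (cycv g (fun _ => 1)) G) (i : I) (hcard : F₀.1 ≤ Nat.card (F i)) (x y : F i)
    (hxy : G.Adj (Sum.inl ⟨i, x⟩) (Sum.inl ⟨i, y⟩)) : Has 𝓕 G := by
  have hne : x ≠ y := by
    rintro rfl
    exact G.irrefl hxy
  have hsub : x - y ≠ 0 := sub_ne_zero.2 hne
  have hall : ∀ a b : F i, a ≠ b → G.Adj (Sum.inl ⟨i, a⟩) (Sum.inl ⟨i, b⟩) := by
    intro a b hab
    have hab' : a - b ≠ 0 := sub_ne_zero.2 hab
    obtain ⟨u, hu⟩ := hgen i (Units.mk0 ((a - b) / (x - y)) (div_ne_zero hab' hsub))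
    have hu' : ((g i ^ u : (F i)ˣ) : F i) = (a - b) / (x - y) := by rw [← hu]; rfl
    have h1 := n5a_tra G ha i _ _ (b - ((g i ^ u : (F i)ˣ) : F i) * y) (n5a_cyc g G hc i x y u hxy)
    have e1 : ((g i ^ u : (F i)ˣ) : F i) * x + (b - ((g i ^ u : (F i)ˣ) : F i) * y) = a := by
      have : ((g i ^ u : (F i)ˣ) : F i) * (x - y) = a - b := by
        rw [hu', div_mul_cancel₀ _ hsub]
      linear_combination this
    have e2 : ((g i ^ u : (F i)ˣ) : F i) * y + (b - ((g i ^ u : (F i)ˣ) : F i) * y) = b := by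
      ring
    rw [e1, e2] at h1
    exact h1
  have hemb : Nonempty (Fin F₀.1 ↪ F i) := by
    rcases finite_or_infinite (F i) with hfin | hinf
    · have := Fintype.ofFinite (F i)
      apply Function.Embedding.nonempty_of_card_le
      rw [Fintype.card_fin, ← Nat.card_eq_fintype_card]
      exact hcard
    · exact ⟨Fin.valEmbedding.trans (Infinite.natEmbedding (F i))⟩
  obtain ⟨φ⟩ := hemb
  refine ⟨F₀, hF₀, ⟨⟨⟨fun k => Sum.inl ⟨i, φ k⟩, ?_⟩, ?_⟩⟩⟩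
  · intro a b hab
    exact hall _ _ (fun h => hab.ne (φ.injective h))
  · intro a b hab
    have h1 : (Sum.inl (⟨i, φ a⟩ : Σ i : I, F i) : VB F ℓ) = Sum.inl ⟨i, φ b⟩ := hab
    have h2 := Sum.inl_injective h1
    rw [Sigma.mk.injEq] at h2
    exact φ.injective (eq_of_heq h2.2)

end Pool.Agent.H98R2.Nb
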