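import Pool.Agent.H98R2.Nb.N7

set_option autoImplicit false

/-!
Task N5b: a cyclic block with edges inside and an edge to another block contain every graph which
is a subgraph of a hypercube after the removal of an independent set.
-/

namespace Pool.Agent.H98R2.Nb

open Finset Pool.Agent.H98R2.Ev

namespace N5b

/-- every set with enough elements contains `k` points -/
theorem exists_inj {α : Type} {k : ℕ} (h : k ≤ Nat.card α) :
    ∃ f : Fin k → α, Function.Injective f := by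
  rcases finite_or_infinite α with hf | hf
  · have : Fintype α := Fintype.ofFinite α
    rw [Nat.card_eq_fintype_card] at h
    have h1 : Fintype.card (Fin k) ≤ Fintype.card α := by
      rw [Fintype.card_fin]
      exact h
    obtain ⟨f⟩ := Function.Embedding.nonempty_of_card_le h1
    exact ⟨f, f.injective⟩
  · exact ⟨fun i => Infinite.natEmbedding α i.val, fun i j hij =>
      Fin.ext ((Infinite.natEmbedding α).injective hij)⟩

variable {I J : Type} {F : I → Type} [∀ i, Field (F i)] {ℓ : J → ℕ}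

/-- every block contains `k` points -/
theorem exists_inj_blk [∀ j, Fact (ℓ j).Prime] {k : ℕ} (hI : ∀ i, k ≤ Nat.card (F i))
    (hJ : ∀ j, k ≤ ℓ j) (x : I ⊕ J) :
    ∃ f : Fin k → VB F ℓ, Function.Injective f ∧ ∀ v, blk (f v) = x := by
  rcases x with i | j
  · obtain ⟨f, hf⟩ := exists_inj (hI i)
    refine ⟨fun v => Sum.inl ⟨i, f v⟩, ?_, fun v => rfl⟩
    intro u v huv
    simp only [Sum.inl.injEq, Sigma.mk.injEq, heq_eq_eq, true_and] at huv
    exact hf huv
  · have h1 : k ≤ Nat.card (ZMod (ℓ j)) := by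
      rw [Nat.card_zmod]
      exact hJ j
    obtain ⟨f, hf⟩ := exists_inj h1
    refine ⟨fun v => Sum.inr ⟨j, f v⟩, ?_, fun v => rfl⟩
    intro u v huv
    simp only [Sum.inr.injEq, Sigma.mk.injEq, heq_eq_eq, true_and] at huv
    exact hf huv

/-- the statement with the copies of the cubes as a hypothesis -/
theorem main [∀ j, Fact (ℓ j).Prime] [DecidableEq I] [DecidableEq J]
    (𝓕 : Fam) (F₀ : Σ k : ℕ, SimpleGraph (Fin k)) (hF₀ : F₀ ∈ 𝓕) (N : ℕ)
    (hnc : NC F₀.2 N) (hI : ∀ i, F₀.1 ≤ Nat.card (F i)) (hJ : ∀ j, F₀.1 ≤ ℓ j)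
    (w : ∀ j, (ZMod (ℓ j))ˣ) (S : Finset (EV (I ⊕ J)))
    (T : ∀ j, Finset (Om (ℓ j) (w j))) (j : J) (x : I ⊕ J)
    (hψ : ∃ ψ : Finset (Fin N) → ZMod (ℓ j), Function.Injective ψ ∧
      ∀ A B, (symmDiff A B).card = 1 → (cg (w j) (T j)).Adj (ψ A) (ψ B))
    (hS : (toG S).Adj (Sum.inr j) x) : Has 𝓕 (gg (F := F) w S T) := by
  classical
  obtain ⟨Is, φ, hind, hinj, hadj⟩ := hnc
  obtain ⟨ψ, hψi, hψa⟩ := hψ
  obtain ⟨f, hf, hfx⟩ := exists_inj_blk (F := F) hI hJ x
  have hne : x ≠ Sum.inr j := hS.ne'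
  refine ⟨F₀, hF₀, ?_⟩
  set g : Fin F₀.1 → VB F ℓ := fun v => if v ∈ Is then f v else Sum.inr ⟨j, ψ (φ v)⟩ with hg
  have g1 : ∀ v, v ∈ Is → g v = f v := fun v hv => by simp only [hg, if_pos hv]
  have g2 : ∀ v, v ∉ Is → g v = Sum.inr ⟨j, ψ (φ v)⟩ := fun v hv => by simp only [hg, if_neg hv]
  have b1 : ∀ v, v ∈ Is → blk (g v) = x := fun v hv => by rw [g1 v hv, hfx]
  have b2 : ∀ v, v ∉ Is → blk (g v) = Sum.inr j := fun v hv => by rw [g2 v hv]; rfl
  have hginj : Function.Injective g := by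
    intro u v huv
    by_cases hu : u ∈ Is
    · by_cases hv : v ∈ Is
      · rw [g1 u hu, g1 v hv] at huv
        exact hf huv
      · exfalso
        apply hne
        rw [← b1 u hu, huv, b2 v hv]
    · by_cases hv : v ∈ Is
      · exfalso
        apply hne
        rw [← b1 v hv, ← huv, b2 u hu]
      · rw [g2 u hu, g2 v hv] at huv
        simp only [Sum.inr.injEq, Sigma.mk.injEq, heq_eq_eq, true_and] at huv
        exact hinj hu hv (hψi huv)
  have hgadj : ∀ {u v}, F₀.2.Adj u v → (gg (F := F) w S T).Adj (g u) (g v) := by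
    intro u v huv
    by_cases hu : u ∈ Is
    · by_cases hv : v ∈ Is
      · exact absurd huv (hind u hu v hv)
      · refine Or.inl ?_
        rw [b1 u hu, b2 v hv]
        exact hS.symm
    · by_cases hv : v ∈ Is
      · refine Or.inl ?_
        rw [b2 u hu, b1 v hv]
        exact hS
      · exact Or.inr ⟨j, _, _, g2 u hu, g2 v hv, hψa _ _ (hadj u hu v hv huv)⟩
  exact ⟨⟨⟨g, hgadj⟩, hginj⟩⟩

end N5b

section VB

variable {I J : Type} {F : I → Type} [∀ i, Field (F i)] {ℓ : J → ℕ}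
variable [∀ j, Fact (ℓ j).Prime] [DecidableEq I] [DecidableEq J]

/-- N5b -/
theorem has_adj (𝓕 : Fam) (F₀ : Σ k : ℕ, SimpleGraph (Fin k)) (hF₀ : F₀ ∈ 𝓕) (N : ℕ)
    (hnc : NC F₀.2 N) (hI : ∀ i, F₀.1 ≤ Nat.card (F i)) (hJ : ∀ j, F₀.1 ≤ ℓ j)
    (w : ∀ j, (ZMod (ℓ j))ˣ) (hord : ∀ j, 3 ^ N ≤ orderOf (w j)) (S : Finset (EV (I ⊕ J)))
    (T : ∀ j, Finset (Om (ℓ j) (w j))) (j : J) (hT : (T j).Nonempty) (x : I ⊕ J)
    (hS : (toG S).Adj (Sum.inr j) x) : Has 𝓕 (gg (F := F) w S T) :=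
  N5b.main 𝓕 F₀ hF₀ N hnc hI hJ w S T j x
    (cube_in_circ (ℓ j) (w j) (T j) hT N (hord j)) hS

end VB

end Pool.Agent.H98R2.Nb
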