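import Mathlib
import Pool.Agent.H98R2.Nb.Defs

set_option autoImplicit false

namespace Pool.Agent.H98R2.Nb

open Finset Pool.Agent.H98R2.Ev

theorem N5c_mono {𝓕 : Fam} {V W : Type} {G : SimpleGraph V} {H : SimpleGraph W}
    (f : V → W) (hf : Function.Injective f) (h : ∀ x y, G.Adj x y → H.Adj (f x) (f y))
    (hG : Has 𝓕 G) : Has 𝓕 H := by
  obtain ⟨F, hF, ⟨c⟩⟩ := hG
  refine ⟨F, hF, ⟨⟨⟨fun v => f (c v), ?_⟩, ?_⟩⟩⟩
  · intro a b hab
    exact h _ _ (c.toHom.map_adj hab)
  · intro a b hab
    exact c.injective (hf hab)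

theorem N5c_inj (α : Type) (b : ℕ) (h : b ≤ Nat.card α) :
    ∃ f : Fin b → α, Function.Injective f := by
  rcases Nat.eq_zero_or_pos b with rfl | hb
  · exact ⟨fun i => i.elim0, fun i => i.elim0⟩
  · have hfin : Finite α := Nat.finite_of_card_ne_zero (by omega)
    haveI := Fintype.ofFinite α
    rw [Nat.card_eq_fintype_card] at h
    obtain ⟨e⟩ := Function.Embedding.nonempty_of_card_le (α := Fin b) (β := α) (by simpa using h)
    exact ⟨e, e.injective⟩

section VB

variable {I J : Type} {F : I → Type} [∀ i, Field (F i)] {ℓ : J → ℕ}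
variable [Fintype J] [∀ j, Fact (ℓ j).Prime] [Fintype I] [DecidableEq I] [DecidableEq J]

theorem has_iff (𝓕 : Fam) (b : ℕ) (hgood : Good 𝓕 b) (hI : ∀ i, b ≤ Nat.card (F i))
    (hJ : ∀ j, b ≤ ℓ j) (w : ∀ j, (ZMod (ℓ j))ˣ) (S : Finset (EV (I ⊕ J)))
    (T : ∀ j, Finset (Om (ℓ j) (w j)))
    (hiso : ∀ j, (T j).Nonempty → ∀ x, ¬ (toG S).Adj (Sum.inr j) x) :
    Has 𝓕 (gg (F := F) w S T) ↔
      (∃ j, Has 𝓕 (cg (w j) (T j))) ∨ Has 𝓕 (blow (toG S) b) := by
  constructor
  · rintro ⟨G, hG, ⟨c⟩⟩
    by_cases hA : ∃ (v0 : Fin G.1) (j : J) (u : ZMod (ℓ j)),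
        c v0 = Sum.inr ⟨j, u⟩ ∧ (T j).Nonempty
    · left
      obtain ⟨v0, j, u, hv0, hT⟩ := hA
      have key : ∀ v : Fin G.1, ∃ u' : ZMod (ℓ j), c v = Sum.inr ⟨j, u'⟩ := by
        intro v
        have hconn := (hgood.conn G hG).preconnected v0 v
        obtain ⟨p⟩ := hconn
        have gen : ∀ {x y : Fin G.1} (p : G.2.Walk x y),
            (∃ u' : ZMod (ℓ j), c x = Sum.inr ⟨j, u'⟩) →
            ∃ u' : ZMod (ℓ j), c y = Sum.inr ⟨j, u'⟩ := by
          intro x y p
          induction p with
          | nil => exact id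
          | @cons x y z hxy p ih =>
            rintro ⟨u', hu'⟩
            apply ih
            have hadj : (gg (F := F) w S T).Adj (c x) (c y) := c.toHom.map_adj hxy
            rcases hadj with h | ⟨j', u1, u2, h1, h2, h3⟩
            · rw [hu'] at h
              exact absurd h (hiso j hT _)
            · rw [hu'] at h1
              simp only [Sum.inr.injEq, Sigma.mk.injEq] at h1
              obtain ⟨h1, -⟩ := h1
              subst h1
              exact ⟨u2, h2⟩
        exact gen p ⟨u, hv0⟩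
      choose g hg using key
      refine ⟨j, G, hG, ⟨⟨⟨g, ?_⟩, ?_⟩⟩⟩
      · intro x y hxy
        have hadj : (gg (F := F) w S T).Adj (c x) (c y) := c.toHom.map_adj hxy
        rcases hadj with h | ⟨j', u1, u2, h1, h2, h3⟩
        · rw [hg x] at h
          exact absurd h (hiso j hT _)
        · rw [hg x] at h1
          rw [hg y] at h2
          simp only [Sum.inr.injEq, Sigma.mk.injEq] at h1 h2
          obtain ⟨h1, h1'⟩ := h1
          subst h1
          have e1 := eq_of_heq h1'
          have e2 := eq_of_heq h2.2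
          rw [e1, e2]
          exact h3
      · intro x y hxy
        apply c.injective
        show c x = c y
        have hxy' : g x = g y := hxy
        rw [hg x, hg y, hxy']
    · right
      have hB : ∀ x y, G.2.Adj x y → (toG S).Adj (blk (c x)) (blk (c y)) := by
        intro x y hxy
        have hadj : (gg (F := F) w S T).Adj (c x) (c y) := c.toHom.map_adj hxy
        rcases hadj with h | ⟨j', u1, u2, h1, h2, h3⟩
        · exact h
        · exfalso
          apply hA
          refine ⟨x, j', u1, h1, ?_⟩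
          obtain ⟨_, d, _, hd⟩ := h3
          exact ⟨_, hd⟩
      let e : I ⊕ J ≃ Fin (Fintype.card (I ⊕ J)) := Fintype.equivFin _
      have h1 : Has 𝓕 (blow ((toG S).comap e.symm) G.1) := by
        refine ⟨G, hG, ⟨⟨⟨fun v => (e (blk (c v)), v), ?_⟩, ?_⟩⟩⟩
        · intro x y hxy
          show (toG S).Adj (e.symm (e (blk (c x)))) (e.symm (e (blk (c y))))
          rw [e.symm_apply_apply, e.symm_apply_apply]
          exact hB x y hxy
        · intro x y hxy
          exact congrArg Prod.snd hxy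
      have h2 := hgood.stable _ _ _ h1
      refine N5c_mono (fun x : Fin (Fintype.card (I ⊕ J)) × Fin b => (e.symm x.1, x.2)) ?_ ?_ h2
      · intro x y hxy
        simp only [Prod.mk.injEq] at hxy
        exact Prod.ext (e.symm.injective hxy.1) hxy.2
      · intro x y hxy
        exact hxy
  · rintro (⟨j, hj⟩ | hb)
    · refine N5c_mono (fun u : ZMod (ℓ j) => (Sum.inr ⟨j, u⟩ : VB F ℓ)) ?_ ?_ hj
      · intro x y hxy
        simpa using hxy
      · intro x y hxy
        exact Or.inr ⟨j, x, y, rfl, rfl, hxy⟩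
    · have hI' : ∀ i, ∃ f : Fin b → F i, Function.Injective f := fun i => N5c_inj _ _ (hI i)
      have hJ' : ∀ j, ∃ f : Fin b → ZMod (ℓ j), Function.Injective f :=
        fun j => N5c_inj _ _ (by rw [Nat.card_zmod]; exact hJ j)
      choose fI hfI using hI'
      choose fJ hfJ using hJ'
      let φ : (I ⊕ J) × Fin b → VB F ℓ := fun x =>
        match x.1 with
        | Sum.inl i => Sum.inl ⟨i, fI i x.2⟩
        | Sum.inr j => Sum.inr ⟨j, fJ j x.2⟩
      have hφ : ∀ x, blk (φ x) = x.1 := by
        rintro ⟨i | j, k⟩ <;> rfl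
      refine N5c_mono φ ?_ ?_ hb
      · rintro ⟨x, k⟩ ⟨y, l⟩ hxy
        have h1 : x = y := by
          have := congrArg blk hxy
          rwa [hφ, hφ] at this
        subst h1
        rcases x with i | j
        · have : (⟨i, fI i k⟩ : Σ i, F i) = ⟨i, fI i l⟩ := Sum.inl_injective hxy
          have := eq_of_heq (Sigma.mk.inj this).2
          rw [hfI i this]
        · have : (⟨j, fJ j k⟩ : Σ j, ZMod (ℓ j)) = ⟨j, fJ j l⟩ := Sum.inr_injective hxy
          have := eq_of_heq (Sigma.mk.inj this).2
          rw [hfJ j this]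
      · intro x y hxy
        left
        rw [hφ, hφ]
        exact hxy

end VB

end Pool.Agent.H98R2.Nb
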