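import Mathlib
import Pool.Agent.H98R2.Nb.Defs

set_option autoImplicit false

/-!
The blow-up of the triangle contains a member of the family.
-/

namespace Pool.Agent.H98R2.Nb

open Finset Pool.Agent.H98R2.Ev

open Classical in
theorem has_K3 (𝓕 : Fam) (b : ℕ) (hgood : Good 𝓕 b) (F₀ : Σ k : ℕ, SimpleGraph (Fin k))
    (hF₀ : F₀ ∈ 𝓕) (N : ℕ) (hnc : NC F₀.2 N) : Has 𝓕 (blow (⊤ : SimpleGraph (Fin 3)) b) := by
  obtain ⟨I, φ, hI, _, hadj⟩ := hnc
  refine hgood.stable 3 F₀.1 ⊤ ⟨F₀, hF₀, ?_⟩
  set col : Fin F₀.1 → Fin 3 := fun x => if x ∈ I then 0 else if Even (φ x).card then 1 else 2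
    with hcol
  have hne : ∀ x y, F₀.2.Adj x y → col x ≠ col y := by
    intro x y hxy
    by_cases hx : x ∈ I
    · have hy : y ∉ I := fun hy => hI x hx y hy hxy
      simp only [hcol, if_pos hx, if_neg hy]
      split_ifs <;> decide
    · by_cases hy : y ∈ I
      · simp only [hcol, if_neg hx, if_pos hy]
        split_ifs <;> decide
      · have h1 := hadj x hx y hy hxy
        have e1 : (symmDiff (φ x) (φ y)).card = (φ x \ φ y).card + (φ y \ φ x).card := by
          rw [symmDiff_def, Finset.sup_eq_union, Finset.card_union_of_disjoint]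
          exact disjoint_sdiff_sdiff
        have e2 := Finset.card_sdiff_add_card_inter (φ x) (φ y)
        have e3 := Finset.card_sdiff_add_card_inter (φ y) (φ x)
        rw [Finset.inter_comm (φ y) (φ x)] at e3
        have h2 : Even (φ x).card ↔ ¬ Even (φ y).card := by
          rw [Nat.even_iff, Nat.even_iff]
          omega
        simp only [hcol, if_neg hx, if_neg hy]
        by_cases h3 : Even (φ x).card
        · rw [if_pos h3, if_neg (h2.1 h3)]
          decide
        · have h4 : Even (φ y).card := by
            by_contra h4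
            exact h3 (h2.2 h4)
          rw [if_neg h3, if_pos h4]
          decide
  let f : F₀.2 →g blow (⊤ : SimpleGraph (Fin 3)) F₀.1 :=
    { toFun := fun x => (col x, x)
      map_rel' := by
        intro x y hxy
        exact hne x y hxy }
  exact ⟨⟨f, fun x y h => (Prod.mk.inj h).2⟩⟩

end Pool.Agent.H98R2.Nb
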