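import Mathlib
import Pool.Agent.H98R2.Nb.Defs
import Pool.Agent.H98R2.Ev.T15

set_option autoImplicit false

/-! N6: the signed count of block graphs is the parity mod 3. -/

namespace Pool.Agent.H98R2.Nb

open Finset Pool.Agent.H98R2.Ev

namespace N6

theorem has_of_contained (𝓕 : Fam) {V W : Type} {G : SimpleGraph V} {H : SimpleGraph W}
    (h : G.IsContained H) (hG : Has 𝓕 G) : Has 𝓕 H := by
  obtain ⟨F, hF, hc⟩ := hG
  exact ⟨F, hF, hc.trans h⟩

theorem blow_contained {V W : Type} {G : SimpleGraph V} {H : SimpleGraph W} (b N : ℕ)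
    (f : V → W) (hf : ∀ u v, G.Adj u v → H.Adj (f u) (f v)) (e : V × Fin b → Fin N)
    (he : ∀ p q : V × Fin b, f p.1 = f q.1 → e p = e q → p = q) :
    (blow G b).IsContained (blow H N) := by
  refine ⟨⟨⟨fun p => (f p.1, e p), ?_⟩, ?_⟩⟩
  · intro p q hpq
    exact hf _ _ hpq
  · intro p q hpq
    have h1 : f p.1 = f q.1 := congrArg Prod.fst hpq
    have h2 : e p = e q := congrArg Prod.snd hpq
    exact he p q h1 h2

theorem stable' (𝓕 : Fam) (b : ℕ) (hgood : Good 𝓕 b) {B : Type} [Fintype B]
    (G : SimpleGraph B) (N : ℕ) (h : Has 𝓕 (blow G N)) : Has 𝓕 (blow G b) := by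
  let e : B ≃ Fin (Fintype.card B) := Fintype.equivFin B
  let Γ : SimpleGraph (Fin (Fintype.card B)) := G.comap e.symm
  have h1 : Has 𝓕 (blow Γ N) := by
    refine has_of_contained 𝓕 (blow_contained N N e ?_ (fun p => p.2) ?_) h
    · intro u v huv
      simpa [Γ] using huv
    · intro p q hp hq
      exact Prod.ext (e.injective hp) hq
  have h2 := hgood.stable _ N Γ h1
  refine has_of_contained 𝓕 (blow_contained b b e.symm ?_ (fun p => p.2) ?_) h2
  · intro u v huv
    exact huv
  · intro p q hp hq
    exact Prod.ext (e.symm.injective hp) hq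

theorem has_hom (𝓕 : Fam) (b : ℕ) (hgood : Good 𝓕 b) {V B : Type} [Fintype V] [Fintype B]
    {G : SimpleGraph V} {H : SimpleGraph B} (f : V → B)
    (hf : ∀ u v, G.Adj u v → H.Adj (f u) (f v)) (h : Has 𝓕 (blow G b)) : Has 𝓕 (blow H b) := by
  refine stable' 𝓕 b hgood H (Fintype.card (V × Fin b)) ?_
  refine has_of_contained 𝓕 (blow_contained b _ f hf (Fintype.equivFin (V × Fin b)) ?_) h
  intro p q _ hq
  exact (Fintype.equivFin (V × Fin b)).injective hq

theorem sum_fix {α : Type} [Fintype α] [DecidableEq α] (π : Equiv.Perm α) (hπ : π ^ 3 = 1)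
    (f : α → ℤ) (hf : ∀ a, f (π a) = f a) :
    (3 : ℤ) ∣ ∑ a, f a - ∑ a ∈ univ.filter (fun a => π a = a), f a := by
  classical
  have e1 : ∑ a, f a = ∑ v ∈ univ.image f, ((univ.filter (fun a => f a = v)).card : ℤ) * v := by
    rw [← Finset.sum_fiberwise_of_maps_to (g := f) (t := univ.image f)
      (fun a _ => mem_image_of_mem f (mem_univ a))]
    refine sum_congr rfl fun v _ => ?_
    rw [sum_congr rfl (fun a ha => (mem_filter.1 ha).2), sum_const, nsmul_eq_mul]
  have e2 : ∑ a ∈ univ.filter (fun a => π a = a), f a =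
      ∑ v ∈ univ.image f,
        (((univ.filter (fun a => π a = a)).filter (fun a => f a = v)).card : ℤ) * v := by
    rw [← Finset.sum_fiberwise_of_maps_to (g := f) (t := univ.image f)
      (fun a _ => mem_image_of_mem f (mem_univ a))]
    refine sum_congr rfl fun v _ => ?_
    rw [sum_congr rfl (fun a ha => (mem_filter.1 ha).2), sum_const, nsmul_eq_mul]
  rw [e1, e2, ← sum_sub_distrib]
  refine dvd_sum fun v _ => ?_
  rw [← sub_mul]
  refine Dvd.dvd.mul_right ?_ _
  have hP : ∀ a, f (π a) = v ↔ f a = v := fun a => by rw [hf]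
  let σ : Equiv.Perm {a // f a = v} := π.subtypePerm hP
  have hσ : σ ^ (3 ^ 1) = 1 := by
    have : π ^ (3 ^ 1) = 1 := by simpa using hπ
    ext a
    rw [pow_one]
    have h3 : (σ ^ 3) a = σ (σ (σ a)) := by
      rw [pow_succ, pow_two]; rfl
    have h4 : (π ^ 3) (a : α) = π (π (π a)) := by
      rw [pow_succ, pow_two]; rfl
    rw [h3]
    have h5 : ((σ (σ (σ a)) : {a // f a = v}) : α) = π (π (π a)) := rfl
    rw [h5, ← h4, hπ]
    rfl
  haveI : Fact (Nat.Prime 3) := ⟨Nat.prime_three⟩
  have key := Equiv.Perm.card_compl_support_modEq hσ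
  have c1 : Fintype.card {a // f a = v} = (univ.filter (fun a => f a = v)).card := by
    rw [Fintype.card_subtype]
  have c2 : (σ.supportᶜ).card =
      ((univ.filter (fun a => π a = a)).filter (fun a => f a = v)).card := by
    refine Finset.card_bij (fun a _ => (a : α)) ?_ ?_ ?_
    · intro a ha
      rw [mem_compl, Equiv.Perm.mem_support, not_not] at ha
      simp only [mem_filter, mem_univ, true_and]
      exact ⟨congrArg Subtype.val ha, a.2⟩
    · intro a _ b _ hab
      exact Subtype.ext hab
    · intro a ha
      simp only [mem_filter, mem_univ, true_and] at ha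
      refine ⟨⟨a, ha.2⟩, ?_, rfl⟩
      rw [mem_compl, Equiv.Perm.mem_support, not_not]
      exact Subtype.ext ha.1
  rw [c1, c2] at key
  exact (Int.natCast_modEq_iff.2 key).dvd

variable {B : Type} [Fintype B] [DecidableEq B]

theorem adj_iff (S : Finset (EV B)) (a b : B) :
    (toG S).Adj a b ↔ ∃ h : ¬ (s(a, b) : Sym2 B).IsDiag, (⟨s(a, b), h⟩ : EV B) ∈ S := by
  rw [← SimpleGraph.mem_edgeSet, t3_mem_toG]

theorem ext_adj (S T : Finset (EV B)) (h : ∀ u v, (toG S).Adj u v ↔ (toG T).Adj u v) : S = T := by
  ext ⟨e, he⟩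
  induction e using Sym2.ind with
  | _ u v =>
    have := h u v
    rw [adj_iff, adj_iff] at this
    constructor
    · intro h1
      exact (this.1 ⟨he, h1⟩).2
    · intro h1
      exact (this.2 ⟨he, h1⟩).2

/-- edges inside `K` -/
def Ins (K : Finset B) (S : Finset (EV B)) : Prop := ∀ e ∈ S, ∀ x ∈ e.1, x ∈ K

theorem ins_iff (K : Finset B) (S : Finset (EV B)) :
    Ins K S ↔ ∀ u v, (toG S).Adj u v → u ∈ K := by
  constructor
  · intro h u v huv
    rw [adj_iff] at huv
    obtain ⟨h1, h2⟩ := huv
    exact h _ h2 u (by simp)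
  · rintro h ⟨e, he⟩ heS x hx
    induction e using Sym2.ind with
    | _ u v =>
      have h1 : (toG S).Adj u v := (adj_iff S u v).2 ⟨he, heS⟩
      simp only [Sym2.mem_iff] at hx
      rcases hx with rfl | rfl
      · exact h _ _ h1
      · exact h _ _ h1.symm

open Classical in
/-- the weight -/
noncomputable def wt (𝓕 : Fam) (b : ℕ) (S : Finset (EV B)) : ℤ :=
  if ¬ Has 𝓕 (blow (toG S) b) then (-1) ^ S.card else 0

open Classical in
theorem sc_eq (𝓕 : Fam) (b : ℕ) (K : Finset B) :
    sc 𝓕 b K = ∑ S : Finset (EV B), if Ins K S then wt 𝓕 b S else 0 := by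
  unfold sc
  refine sum_congr rfl fun S _ => ?_
  unfold wt
  by_cases h1 : Ins K S
  · by_cases h2 : ¬ Has 𝓕 (blow (toG S) b)
    · rw [if_pos ⟨h1, h2⟩, if_pos h1, if_pos h2]
    · rw [if_neg (fun h => h2 h.2), if_pos h1, if_neg h2]
  · rw [if_neg (fun h => h1 h.1), if_neg h1]

theorem blow_color {V : Type} (G : SimpleGraph V) (b : ℕ) (h : G.Colorable 2) :
    (blow G b).Colorable 2 := by
  obtain ⟨c⟩ := h
  exact ⟨SimpleGraph.Coloring.mk (fun p => c p.1) (fun {p q} hpq => c.valid hpq)⟩

theorem not_has_of_color (𝓕 : Fam) (b : ℕ) (hgood : Good 𝓕 b) {V : Type} (G : SimpleGraph V)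
    (h : G.Colorable 2) : ¬ Has 𝓕 (blow G b) := by
  rintro ⟨F, hF, ⟨c⟩⟩
  apply hgood.nonbip F hF
  obtain ⟨d⟩ := blow_color G b h
  exact ⟨d.comp c.toHom⟩


theorem sc_one (𝓕 : Fam) (b : ℕ) (hgood : Good 𝓕 b) (x : B) : sc 𝓕 b ({x} : Finset B) = 1 := by
  classical
  rw [sc_eq]
  have hins : ∀ S : Finset (EV B), Ins {x} S → S = ∅ := by
    intro S hS
    rw [ins_iff] at hS
    refine ext_adj _ _ fun u v => ?_
    constructor
    · intro h
      have h1 := mem_singleton.1 (hS u v h)
      have h2 := mem_singleton.1 (hS v u h.symm)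
      subst h1; subst h2
      exact absurd h ((toG S).loopless.irrefl _)
    · intro h
      rw [adj_iff] at h
      obtain ⟨_, h⟩ := h
      simp at h
  rw [Finset.sum_eq_single ∅]
  · have h1 : Ins ({x} : Finset B) ∅ := by intro e he; simp at he
    rw [if_pos h1]
    unfold wt
    rw [if_pos]
    · simp
    · refine not_has_of_color 𝓕 b hgood _ ?_
      refine ⟨SimpleGraph.Coloring.mk (fun _ => (0 : Fin 2)) ?_⟩
      intro u v huv
      rw [adj_iff] at huv
      obtain ⟨_, h⟩ := huv
      simp at h
  · intro S _ hS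
    rw [if_neg]
    intro h
    exact hS (hins S h)
  · intro h
    exact absurd (mem_univ _) h

theorem sc_two (𝓕 : Fam) (b : ℕ) (hgood : Good 𝓕 b) (x y : B) (hxy : x ≠ y) :
    sc 𝓕 b ({x, y} : Finset B) = 0 := by
  classical
  rw [sc_eq]
  have hd : ¬ (s(x, y) : Sym2 B).IsDiag := by simpa using hxy
  have hc : ∀ S : Finset (EV B), Ins {x, y} S → ¬ Has 𝓕 (blow (toG S) b) := by
    intro S hS
    rw [ins_iff] at hS
    refine not_has_of_color 𝓕 b hgood _ ?_
    refine ⟨SimpleGraph.Coloring.mk (fun u => if u = x then (0 : Fin 2) else 1) ?_⟩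
    intro u v huv
    have h1 := hS u v huv
    have h2 := hS v u huv.symm
    have h3 := huv.ne
    simp only [mem_insert, mem_singleton] at h1 h2
    rcases h1 with rfl | rfl <;> rcases h2 with rfl | rfl
    · exact absurd rfl h3
    · simp [h3.symm]
    · simp [h3]
    · exact absurd rfl h3
  have hins : ∀ S : Finset (EV B), Ins {x, y} S → S = ∅ ∨ S = {⟨s(x, y), hd⟩} := by
    intro S hS
    have hsub : S ⊆ {⟨s(x, y), hd⟩} := by
      rintro ⟨e, he⟩ heS
      have hS' := hS _ heS
      induction e using Sym2.ind with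
      | _ u v =>
        have h1 : u ∈ ({x, y} : Finset B) := hS' u (by simp)
        have h2 : v ∈ ({x, y} : Finset B) := hS' v (by simp)
        have h3 : u ≠ v := by simpa using he
        simp only [mem_insert, mem_singleton] at h1 h2
        rw [mem_singleton]
        apply Subtype.ext
        rcases h1 with rfl | rfl <;> rcases h2 with rfl | rfl
        · exact absurd rfl h3
        · rfl
        · exact Sym2.eq_swap
        · exact absurd rfl h3
    exact subset_singleton_iff.1 hsub
  have h0 : Ins ({x, y} : Finset B) ∅ := by intro e he; simp at he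
  have h1 : Ins ({x, y} : Finset B) {⟨s(x, y), hd⟩} := by
    intro e he u hu
    rw [mem_singleton] at he
    subst he
    simpa using hu
  rw [Fintype.sum_eq_add ∅ {⟨s(x, y), hd⟩} (by simp [eq_comm]) ?_]
  · rw [if_pos h0, if_pos h1]
    unfold wt
    rw [if_pos (hc _ h0), if_pos (hc _ h1)]
    simp
  · rintro S ⟨hS1, hS2⟩
    rw [if_neg]
    intro h
    rcases hins S h with h | h
    · exact hS1 h
    · exact hS2 h

section step

variable (x y z : B)

/-- identify `y` and `z` with `x` -/
def fold (u : B) : B := if u = y ∨ u = z then x else u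

theorem fold_id (u : B) (h1 : u ≠ y) (h2 : u ≠ z) : fold x y z u = u := by
  unfold fold
  rw [if_neg (by tauto)]

open Classical in
/-- the pull back of a graph under `fold` -/
noncomputable def ext (S : Finset (EV B)) : Finset (EV B) :=
  univ.filter (fun e => e.1.map (fold x y z) ∈ (toG S).edgeSet)

open Classical in
/-- delete `y` and `z` -/
noncomputable def res (S : Finset (EV B)) : Finset (EV B) :=
  S.filter (fun e => y ∉ e.1 ∧ z ∉ e.1)

theorem ext_mem (S : Finset (EV B)) (u v : B) :
    (toG (ext x y z S)).Adj u v ↔ (toG S).Adj (fold x y z u) (fold x y z v) := by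
  rw [adj_iff]
  unfold ext
  constructor
  · rintro ⟨h, h1⟩
    simpa using h1
  · intro h
    have hne : u ≠ v := by
      rintro rfl
      exact (toG S).loopless.irrefl _ h
    refine ⟨by simpa using hne, ?_⟩
    simpa using h

theorem res_mem (S : Finset (EV B)) (u v : B) :
    (toG (res y z S)).Adj u v ↔ (toG S).Adj u v ∧ u ≠ y ∧ v ≠ y ∧ u ≠ z ∧ v ≠ z := by
  rw [adj_iff, adj_iff]
  unfold res
  simp only [mem_filter, Sym2.mem_iff, not_or]
  constructor
  · rintro ⟨h, h1, h2, h3⟩
    exact ⟨⟨h, h1⟩, Ne.symm h2.1, Ne.symm h2.2, Ne.symm h3.1, Ne.symm h3.2⟩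
  · rintro ⟨⟨h, h1⟩, h2, h3, h4, h5⟩
    exact ⟨h, h1, ⟨h2.symm, h3.symm⟩, h4.symm, h5.symm⟩

theorem subset_ext (S : Finset (EV B)) (K : Finset B) (hy : y ∉ K) (hz : z ∉ K) (hS : Ins K S) :
    S ⊆ ext x y z S := by
  rintro ⟨e, he⟩ heS
  rw [ins_iff] at hS
  induction e using Sym2.ind with
  | _ u v =>
    have h1 : (toG S).Adj u v := (adj_iff S u v).2 ⟨he, heS⟩
    have hu := hS u v h1
    have hv := hS v u h1.symm
    have h2 : (toG (ext x y z S)).Adj u v := by
      rw [ext_mem, fold_id x y z u (by rintro rfl; exact hy hu) (by rintro rfl; exact hz hu),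
        fold_id x y z v (by rintro rfl; exact hy hv) (by rintro rfl; exact hz hv)]
      exact h1
    exact ((adj_iff _ u v).1 h2).2

theorem parity_ext (hyz : y ≠ z) (S : Finset (EV B)) (K : Finset B) (hy : y ∉ K) (hz : z ∉ K)
    (hS : Ins K S) : (-1 : ℤ) ^ (ext x y z S).card = (-1) ^ S.card := by
  classical
  have hsub := subset_ext x y z S K hy hz hS
  have hKS := (ins_iff K S).1 hS
  have hcard : (ext x y z S).card = S.card + (ext x y z S \ S).card := by
    rw [card_sdiff_of_subset hsub]
    have := card_le_card hsub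
    omega
  rw [hcard, pow_add]
  have hone : (-1 : ℤ) ^ (ext x y z S \ S).card = 1 := by
    rw [← Finset.prod_const]
    have hfold : ∀ u, fold x y z (Equiv.swap y z u) = fold x y z u := by
      intro u
      by_cases h1 : u = y
      · subst h1; simp [fold]
      · by_cases h2 : u = z
        · subst h2; simp [fold]
        · rw [Equiv.swap_apply_of_ne_of_ne h1 h2]
    refine Finset.prod_involution (fun e _ => ev15 (Equiv.swap y z) e) ?_ ?_ ?_ ?_
    · intro e _; norm_num
    · rintro ⟨e, he⟩ heD _ heq
      induction e using Sym2.ind with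
      | _ u v =>
        rw [mem_sdiff] at heD
        have hadj : (toG (ext x y z S)).Adj u v := (adj_iff _ u v).2 ⟨he, heD.1⟩
        rw [ext_mem] at hadj
        have hne : u ≠ v := by simpa using he
        have h1 : (s(Equiv.swap y z u, Equiv.swap y z v) : Sym2 B) = s(u, v) :=
          congrArg Subtype.val heq
        rw [Sym2.eq_iff] at h1
        rcases h1 with ⟨h1, h2⟩ | ⟨h1, h2⟩
        · have hu1 : u ≠ y := by
            rintro rfl; rw [Equiv.swap_apply_left] at h1; exact hyz h1.symm
          have hu2 : u ≠ z := by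
            rintro rfl; rw [Equiv.swap_apply_right] at h1; exact hyz h1
          have hv1 : v ≠ y := by
            rintro rfl; rw [Equiv.swap_apply_left] at h2; exact hyz h2.symm
          have hv2 : v ≠ z := by
            rintro rfl; rw [Equiv.swap_apply_right] at h2; exact hyz h2
          rw [fold_id x y z u hu1 hu2, fold_id x y z v hv1 hv2, adj_iff] at hadj
          exact heD.2 hadj.2
        · apply (toG S).loopless.irrefl (fold x y z u)
          have : fold x y z v = fold x y z u := by rw [← h1, hfold]
          rw [this] at hadj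
          exact hadj
    · rintro ⟨e, he⟩ heD
      induction e using Sym2.ind with
      | _ u v =>
        rw [mem_sdiff] at heD ⊢
        have hadj : (toG (ext x y z S)).Adj u v := (adj_iff _ u v).2 ⟨he, heD.1⟩
        rw [ext_mem] at hadj
        have hadj2 : (toG (ext x y z S)).Adj (Equiv.swap y z u) (Equiv.swap y z v) := by
          rw [ext_mem, hfold, hfold]
          exact hadj
        constructor
        · exact ((adj_iff _ _ _).1 hadj2).2
        · intro hcon
          have h3 : (toG S).Adj (Equiv.swap y z u) (Equiv.swap y z v) :=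
            (adj_iff _ _ _).2 ⟨_, hcon⟩
          have hu := hKS _ _ h3
          have hv := hKS _ _ h3.symm
          have hu1 : u ≠ y := by rintro rfl; rw [Equiv.swap_apply_left] at hu; exact hz hu
          have hu2 : u ≠ z := by rintro rfl; rw [Equiv.swap_apply_right] at hu; exact hy hu
          have hv1 : v ≠ y := by rintro rfl; rw [Equiv.swap_apply_left] at hv; exact hz hv
          have hv2 : v ≠ z := by rintro rfl; rw [Equiv.swap_apply_right] at hv; exact hy hv
          rw [Equiv.swap_apply_of_ne_of_ne hu1 hu2, Equiv.swap_apply_of_ne_of_ne hv1 hv2,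
            adj_iff] at h3
          exact heD.2 h3.2
    · rintro ⟨e, he⟩ heD
      induction e using Sym2.ind with
      | _ u v =>
        apply Subtype.ext
        show (s(Equiv.swap y z (Equiv.swap y z u), Equiv.swap y z (Equiv.swap y z v)) : Sym2 B) =
          s(u, v)
        rw [Equiv.swap_apply_self, Equiv.swap_apply_self]
  rw [hone, mul_one]

theorem wt_ext (𝓕 : Fam) (b : ℕ) (hgood : Good 𝓕 b) (hyz : y ≠ z) (S : Finset (EV B))
    (K : Finset B) (hy : y ∉ K) (hz : z ∉ K) (hS : Ins K S) :
    wt 𝓕 b (ext x y z S) = wt 𝓕 b S := by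
  classical
  unfold wt
  rw [parity_ext x y z hyz S K hy hz hS]
  have : Has 𝓕 (blow (toG (ext x y z S)) b) ↔ Has 𝓕 (blow (toG S) b) := by
    constructor
    · intro h
      exact has_hom 𝓕 b hgood (fold x y z) (fun u v huv => (ext_mem x y z S u v).1 huv) h
    · intro h
      exact has_hom 𝓕 b hgood id
        (fun u v huv => toG_mono15 (subset_ext x y z S K hy hz hS) huv) h
  rw [this]

theorem step (𝓕 : Fam) (b : ℕ) (hgood : Good 𝓕 b)
    (hK3 : Has 𝓕 (blow (⊤ : SimpleGraph (Fin 3)) b)) (K : Finset B)
    (hxy : x ≠ y) (hyz : y ≠ z) (hxz : x ≠ z) (hx : x ∈ K) (hy : y ∈ K) (hz : z ∈ K) :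
    (3 : ℤ) ∣ sc 𝓕 b K - sc 𝓕 b ((K.erase y).erase z) := by
  classical
  set K' := (K.erase y).erase z with hK'
  have hyK' : y ∉ K' := by simp [hK']
  have hzK' : z ∉ K' := by simp [hK']
  let s : Equiv.Perm B := Equiv.swap x y * Equiv.swap y z
  have sx : s x = y := by
    simp only [s, Equiv.Perm.mul_apply]
    rw [Equiv.swap_apply_of_ne_of_ne hxy hxz, Equiv.swap_apply_left]
  have sy : s y = z := by
    simp only [s, Equiv.Perm.mul_apply]
    rw [Equiv.swap_apply_left, Equiv.swap_apply_of_ne_of_ne hxz.symm hyz.symm]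
  have sz : s z = x := by
    simp only [s, Equiv.Perm.mul_apply]
    rw [Equiv.swap_apply_right, Equiv.swap_apply_right]
  have so : ∀ u, u ≠ x → u ≠ y → u ≠ z → s u = u := by
    intro u h1 h2 h3
    simp only [s, Equiv.Perm.mul_apply]
    rw [Equiv.swap_apply_of_ne_of_ne h2 h3, Equiv.swap_apply_of_ne_of_ne h1 h2]
  have s3 : ∀ u, s (s (s u)) = u := by
    intro u
    by_cases h1 : u = x
    · subst h1; rw [sx, sy, sz]
    · by_cases h2 : u = y
      · subst h2; rw [sy, sz, sx]
      · by_cases h3 : u = z
        · subst h3; rw [sz, sx, sy]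
        · rw [so u h1 h2 h3, so u h1 h2 h3, so u h1 h2 h3]
  have sK : ∀ u, s u ∈ K ↔ u ∈ K := by
    intro u
    by_cases h1 : u = x
    · subst h1; rw [sx]; exact ⟨fun _ => hx, fun _ => hy⟩
    · by_cases h2 : u = y
      · subst h2; rw [sy]; exact ⟨fun _ => hy, fun _ => hz⟩
      · by_cases h3 : u = z
        · subst h3; rw [sz]; exact ⟨fun _ => hz, fun _ => hx⟩
        · rw [so u h1 h2 h3]
  have sfold : ∀ u, fold x y z (s u) = fold x y z u := by
    intro u
    by_cases h1 : u = x
    · subst h1; rw [sx]; simp [fold]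
    · by_cases h2 : u = y
      · subst h2; rw [sy]; simp [fold]
      · by_cases h3 : u = z
        · subst h3; rw [sz]; simp [fold]
        · rw [so u h1 h2 h3]
  let π : Equiv.Perm (Finset (EV B)) := Equiv.finsetCongr (ev15 s)
  have hπadj : ∀ (S : Finset (EV B)) (u v : B), (toG (π S)).Adj (s u) (s v) ↔ (toG S).Adj u v := by
    intro S u v
    have : toG (π S) = (toG S).map s.toEmbedding := toG_map15 s S
    rw [this]
    exact SimpleGraph.map_adj_apply
  have hπ3 : π ^ 3 = 1 := by
    ext1 S
    have h4 : (π ^ 3) S = π (π (π S)) := by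
      rw [pow_succ, pow_two]; rfl
    rw [h4]
    refine ext_adj _ _ fun u v => ?_
    have := hπadj (π (π S)) (s (s u)) (s (s v))
    rw [s3, s3, hπadj, hπadj] at this
    exact this
  have hInsπ : ∀ S, Ins K (π S) ↔ Ins K S := by
    intro S
    rw [ins_iff, ins_iff]
    constructor
    · intro h u v huv
      exact (sK u).1 (h _ _ ((hπadj S u v).2 huv))
    · intro h u v huv
      have h1 : s (s.symm u) = u := s.apply_symm_apply u
      have h2 : s (s.symm v) = v := s.apply_symm_apply v
      rw [← h1, ← h2, hπadj] at huv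
      have := h _ _ huv
      rw [← sK, h1] at this
      exact this
  have hwtπ : ∀ S, wt 𝓕 b (π S) = wt 𝓕 b S := by
    intro S
    unfold wt
    have hc : (π S).card = S.card := card_map _
    have hH : Has 𝓕 (blow (toG (π S)) b) ↔ Has 𝓕 (blow (toG S) b) := by
      constructor
      · intro h
        refine has_hom 𝓕 b hgood s.symm ?_ h
        intro u v huv
        have h1 : s (s.symm u) = u := s.apply_symm_apply u
        have h2 : s (s.symm v) = v := s.apply_symm_apply v
        rw [← h1, ← h2, hπadj] at huv
        exact huv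
      · intro h
        exact has_hom 𝓕 b hgood s (fun u v huv => (hπadj S u v).2 huv) h
    rw [hc, hH]
  have hfix := sum_fix π hπ3 (fun S => if Ins K S then wt 𝓕 b S else 0) (by
    intro S
    simp only [hInsπ, hwtπ])
  rw [sc_eq 𝓕 b K]
  have hsum : ∑ S ∈ univ.filter (fun S => π S = S), (if Ins K S then wt 𝓕 b S else 0) =
      sc 𝓕 b K' := by
    rw [sc_eq 𝓕 b K']
    have e1 : ∑ S ∈ univ.filter (fun S => π S = S), (if Ins K S then wt 𝓕 b S else 0) =
        ∑ S ∈ univ.filter (fun S => π S = S),
          (if Ins K S ∧ ¬ (toG S).Adj x y then wt 𝓕 b S else 0) := by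
      refine sum_congr rfl fun S hS => ?_
      rw [mem_filter] at hS
      have hS := hS.2
      by_cases h1 : Ins K S
      · by_cases h2 : (toG S).Adj x y
        · rw [if_pos h1, if_neg (fun h => h.2 h2)]
          unfold wt
          rw [if_neg]
          rw [not_not]
          have h3 : (toG S).Adj y z := by
            have := (hπadj S x y).2 h2
            rw [hS, sx, sy] at this
            exact this
          have h4 : (toG S).Adj z x := by
            have := (hπadj S y z).2 h3
            rw [hS, sy, sz] at this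
            exact this
          refine has_hom 𝓕 b hgood (fun i : Fin 3 => if i = 0 then x else if i = 1 then y else z)
            ?_ hK3
          intro i j hij
          fin_cases i <;> fin_cases j <;> simp at hij ⊢
          · exact h2
          · exact h4.symm
          · exact h2.symm
          · exact h3
          · exact h4
          · exact h3.symm
        · rw [if_pos h1, if_pos ⟨h1, h2⟩]
      · rw [if_neg h1, if_neg (fun h => h1 h.1)]
    rw [e1, ← sum_filter, ← sum_filter]
    have hres : ∀ S ∈ (univ.filter (fun S => π S = S)).filter (fun S => Ins K S ∧ ¬ (toG S).Adj x y),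
        res y z S ∈ univ.filter (fun S => Ins K' S) := by
      intro S hS
      simp only [mem_filter, mem_univ, true_and] at hS ⊢
      rw [ins_iff] at hS ⊢
      intro u v huv
      rw [res_mem] at huv
      have := hS.2.1 u v huv.1
      rw [hK', mem_erase, mem_erase]
      exact ⟨huv.2.2.2.1, huv.2.1, this⟩
    have hleft : ∀ S ∈ (univ.filter (fun S => π S = S)).filter (fun S => Ins K S ∧ ¬ (toG S).Adj x y),
        ext x y z (res y z S) = S := by
      intro S hS
      simp only [mem_filter, mem_univ, true_and] at hS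
      obtain ⟨hπS, hI, hnxy⟩ := hS
      have hadj : ∀ u v, (toG S).Adj (s u) (s v) ↔ (toG S).Adj u v := by
        intro u v
        have := hπadj S u v
        rw [hπS] at this
        exact this
      have hnyz : ¬ (toG S).Adj y z := by
        have := hadj x y
        rw [sx, sy] at this
        rw [this]; exact hnxy
      have hnzx : ¬ (toG S).Adj z x := by
        have := hadj y z
        rw [sy, sz] at this
        rw [this]; exact hnyz
      -- `u` outside the triangle: adjacency to x, y, z is the same
      have hcol : ∀ u v, u ≠ x → u ≠ y → u ≠ z →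
          ((toG S).Adj u (fold x y z v) ↔ (toG S).Adj u v) := by
        intro u v h1 h2 h3
        have hs := so u h1 h2 h3
        have a1 := hadj u x
        have a2 := hadj u y
        rw [hs, sx] at a1
        rw [hs, sy] at a2
        by_cases h4 : v = y
        · rw [h4]; simp only [fold, true_or, if_true]; exact a1.symm
        · by_cases h5 : v = z
          · rw [h5]; simp only [fold, or_true, if_true]; rw [a2, a1]
          · rw [fold_id x y z v h4 h5]
      have hin : ∀ u, u = x ∨ u = y ∨ u = z ∨ (u ≠ x ∧ u ≠ y ∧ u ≠ z) := by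
        intro u; tauto
      have fx : fold x y z x = x := fold_id x y z x hxy hxz
      have fy : fold x y z y = x := by simp [fold]
      have fz : fold x y z z = x := by simp [fold]
      have hfull : ∀ u v, (toG S).Adj (fold x y z u) (fold x y z v) ↔ (toG S).Adj u v := by
        intro u v
        by_cases hu : u = x ∨ u = y ∨ u = z
        · by_cases hv : v = x ∨ v = y ∨ v = z
          · have e1 : fold x y z u = x := by rcases hu with rfl | rfl | rfl <;> assumption
            have e2 : fold x y z v = x := by rcases hv with rfl | rfl | rfl <;> assumption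
            rw [e1, e2]
            constructor
            · intro h; exact absurd h ((toG S).loopless.irrefl _)
            · intro h
              exfalso
              rcases hu with rfl | rfl | rfl <;> rcases hv with rfl | rfl | rfl
              · exact (toG S).loopless.irrefl _ h
              · exact hnxy h
              · exact hnzx h.symm
              · exact hnxy h.symm
              · exact (toG S).loopless.irrefl _ h
              · exact hnyz h
              · exact hnzx h
              · exact hnyz h.symm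
              · exact (toG S).loopless.irrefl _ h
          · push Not at hv
            rw [fold_id x y z v hv.2.1 hv.2.2, SimpleGraph.adj_comm,
              hcol v u hv.1 hv.2.1 hv.2.2, SimpleGraph.adj_comm]
        · push Not at hu
          rw [fold_id x y z u hu.2.1 hu.2.2, hcol u v hu.1 hu.2.1 hu.2.2]
      refine ext_adj _ _ fun u v => ?_
      rw [ext_mem, res_mem, hfull]
      have g1 : ∀ u, fold x y z u ≠ y ∧ fold x y z u ≠ z := by
        intro u
        by_cases h4 : u = y ∨ u = z
        · simp only [fold, if_pos h4]; exact ⟨hxy, hxz⟩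
        · simp only [fold, if_neg h4]; push Not at h4; exact h4
      constructor
      · intro h; exact h.1
      · intro h; exact ⟨h, (g1 u).1, (g1 v).1, (g1 u).2, (g1 v).2⟩
    refine Finset.sum_bij' (fun S _ => res y z S) (fun S _ => ext x y z S) hres ?_ hleft ?_ ?_
    · intro S hS
      simp only [mem_filter, mem_univ, true_and] at hS ⊢
      rw [ins_iff] at hS ⊢
      refine ⟨?_, ?_, ?_⟩
      · refine ext_adj _ _ fun u v => ?_
        have h1 : s (s.symm u) = u := s.apply_symm_apply u
        have h2 : s (s.symm v) = v := s.apply_symm_apply v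
        have h3 := hπadj (ext x y z S) (s.symm u) (s.symm v)
        rw [h1, h2] at h3
        rw [h3, ext_mem, ext_mem, ← sfold (s.symm u), ← sfold (s.symm v), h1, h2]
      · intro u v huv
        rw [ext_mem] at huv
        have := hS _ _ huv
        by_cases h2 : u = y
        · rw [h2]; exact hy
        · by_cases h3 : u = z
          · rw [h3]; exact hz
          · rw [fold_id x y z u h2 h3, hK', mem_erase, mem_erase] at this
            exact this.2.2
      · rw [ext_mem]
        intro h
        have h1 : fold x y z x = x := fold_id x y z x hxy hxz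
        have h2 : fold x y z y = x := by simp [fold]
        rw [h1, h2] at h
        exact (toG S).loopless.irrefl _ h
    · intro S hS
      simp only [mem_filter, mem_univ, true_and] at hS
      have hS' := (ins_iff K' S).1 hS
      refine ext_adj _ _ fun u v => ?_
      rw [res_mem, ext_mem]
      constructor
      · rintro ⟨h, h1, h2, h3, h4⟩
        rwa [fold_id x y z u h1 h3, fold_id x y z v h2 h4] at h
      · intro h
        have hu := hS' u v h
        have hv := hS' v u h.symm
        have h1 : u ≠ y := by rintro rfl; exact hyK' hu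
        have h2 : v ≠ y := by rintro rfl; exact hyK' hv
        have h3 : u ≠ z := by rintro rfl; exact hzK' hu
        have h4 : v ≠ z := by rintro rfl; exact hzK' hv
        rw [fold_id x y z u h1 h3, fold_id x y z v h2 h4]
        exact ⟨h, h1, h2, h3, h4⟩
    · intro S hS
      have h1 := hleft S hS
      have h2 := hres S hS
      calc wt 𝓕 b S = wt 𝓕 b (ext x y z (res y z S)) := by rw [h1]
        _ = wt 𝓕 b (res y z S) :=
          wt_ext x y z 𝓕 b hgood hyz (res y z S) K' hyK' hzK' (mem_filter.1 h2).2
  rw [hsum] at hfix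
  exact hfix

end step

end N6

/-- N6 -/
theorem sc_parity (𝓕 : Fam) (b : ℕ) (hgood : Good 𝓕 b)
    (hK3 : Has 𝓕 (blow (⊤ : SimpleGraph (Fin 3)) b)) {B : Type} [Fintype B] [DecidableEq B]
    (K : Finset B) (hK : K.Nonempty) : (3 : ℤ) ∣ sc 𝓕 b K - ((K.card % 2 : ℕ) : ℤ) := by
  obtain ⟨n, hn⟩ : ∃ n, K.card = n := ⟨_, rfl⟩
  induction n using Nat.strong_induction_on generalizing K with
  | _ n ih =>
    have hpos := hK.card_pos
    by_cases h1 : K.card = 1
    · obtain ⟨x, rfl⟩ := card_eq_one.1 h1
      rw [N6.sc_one 𝓕 b hgood x, h1]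
      norm_num
    by_cases h2 : K.card = 2
    · obtain ⟨x, y, hxy, rfl⟩ := card_eq_two.1 h2
      rw [N6.sc_two 𝓕 b hgood x y hxy, h2]
      norm_num
    have h3 : 2 < K.card := by omega
    obtain ⟨x, hx, y, hy, z, hz, hxy, hxz, hyz⟩ := two_lt_card.1 h3
    have hs := N6.step x y z 𝓕 b hgood hK3 K hxy hyz hxz hx hy hz
    have c1 : ((K.erase y).erase z).card = K.card - 2 := by
      rw [card_erase_of_mem (mem_erase.2 ⟨hyz.symm, hz⟩), card_erase_of_mem hy]
      omega
    have hne : ((K.erase y).erase z).Nonempty := by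
      rw [← card_pos, c1]; omega
    have := ih _ (by rw [c1]; omega) ((K.erase y).erase z) hne rfl
    have e : ((K.erase y).erase z).card % 2 = K.card % 2 := by rw [c1]; omega
    rw [e] at this
    have h4 := dvd_add hs this
    have e2 : sc 𝓕 b K - sc 𝓕 b ((K.erase y).erase z) +
        (sc 𝓕 b ((K.erase y).erase z) - ((K.card % 2 : ℕ) : ℤ)) =
        sc 𝓕 b K - ((K.card % 2 : ℕ) : ℤ) := by ring
    rwa [e2] at h4

end Pool.Agent.H98R2.Nb
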