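import Pool.Agent.H98R2.Nb.N8of
import Pool.Agent.H98R2.Nb.N5b
import Pool.Agent.H98R2.Nb.N5c
import Pool.Agent.H98R2.Nb.N5d
import Pool.Agent.H98R2.Nb.N6
import Pool.Agent.H98R2.Nb.N7
set_option autoImplicit false
namespace Pool.Agent.H98R2.Nb
open Finset Pool.Agent.H98R2.Ev

section VB

variable {I J : Type} {F : I → Type} [∀ i, Field (F i)] {ℓ : J → ℕ}
  [Fintype J] [∀ j, Fact (ℓ j).Prime] [Fintype I] [DecidableEq I] [DecidableEq J]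

open Classical in
/-- N8 (proved by helper202) -/
theorem total (𝓕 : Fam) (b : ℕ) (hgood : Good 𝓕 b) (F₀ : Σ k : ℕ, SimpleGraph (Fin k))
    (hF₀ : F₀ ∈ 𝓕) (N : ℕ) (hnc : NC F₀.2 N) (hI : ∀ i, max b F₀.1 ≤ Nat.card (F i))
    (hJ : ∀ j, max b F₀.1 ≤ ℓ j) (w : ∀ j, (ZMod (ℓ j))ˣ) (hord : ∀ j, 3 ^ N ≤ orderOf (w j))
    [Nonempty I] :
    (3 : ℤ) ∣ (∑ A : Finset (Omg (I := I) w),
        if ¬ Has 𝓕 (gA (F := F) w A) then (-1 : ℤ) ^ A.card else 0) -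
      (-(∏ j, (1 + cv 𝓕 (ℓ j) (w j))) +
        (-1) ^ (Fintype.card I + Fintype.card J) * ∏ j, (1 - cv 𝓕 (ℓ j) (w j))) :=
  total_of (fun 𝓕 F₀ hF₀ N hnc hI hJ w hord S T j hT x hS =>
      N5b.main 𝓕 F₀ hF₀ N hnc hI hJ w S T j x (cube_in_circ _ (w j) (T j) hT N (hord j)) hS)
    (fun 𝓕 b hgood hI hJ w S T hiso => has_iff 𝓕 b hgood hI hJ w S T hiso)
    (fun 𝓕 b hgood F₀ hF₀ N hnc => has_K3 𝓕 b hgood F₀ hF₀ N hnc)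
    (fun 𝓕 b hgood hK3 K hK => sc_parity 𝓕 b hgood hK3 K hK)
    𝓕 b hgood F₀ hF₀ N hnc hI hJ w hord

end VB
end Pool.Agent.H98R2.Nb
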