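import Pool.Agent.H98R2.Nb.Defs

set_option autoImplicit false

/-! Task N9: choice of the primes. -/

namespace Pool.Agent.H98R2.Nb

/-- infinitely many primes `1` modulo `m` with the same value of `f` -/
theorem n9_inf (m N : ℕ) (hm : m ≠ 0) (f : ℕ → ZMod 3) :
    ∃ (z : ZMod 3) (e : ℕ → ℕ), Function.Injective e ∧
      ∀ j, (e j).Prime ∧ N < e j ∧ e j ≡ 1 [MOD m] ∧ f (e j) = z := by
  classical
  set P : Set ℕ := {p | p.Prime ∧ N < p ∧ p ≡ 1 [MOD m]} with hP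
  have hinf : P.Infinite := by
    intro hfin
    obtain ⟨B, hB⟩ := hfin.bddAbove
    obtain ⟨p, hp, hgt, hmod⟩ := Nat.exists_prime_gt_modEq_one (k := m) (max B N) hm
    have hmem : p ∈ P := ⟨hp, lt_of_le_of_lt (le_max_right _ _) hgt, hmod⟩
    have h1 := hB hmem
    have h2 := lt_of_le_of_lt (le_max_left B N) hgt
    omega
  have hz : ∃ z : ZMod 3, (P ∩ f ⁻¹' {z}).Infinite := by
    by_contra hcon
    push Not at hcon
    apply hinf
    have hU : P ⊆ ⋃ z : ZMod 3, P ∩ f ⁻¹' {z} := by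
      intro p hp
      simp only [Set.mem_iUnion]
      exact ⟨f p, hp, rfl⟩
    refine Set.Finite.subset (Set.finite_iUnion fun z => ?_) hU
    have := hcon z
    simpa [Set.not_infinite] using this
  obtain ⟨z, hz⟩ := hz
  let e := Set.Infinite.natEmbedding _ hz
  refine ⟨z, fun j => (e j : ℕ), ?_, ?_⟩
  · intro i j h
    exact e.injective (Subtype.ext h)
  · intro j
    have h := (e j).2
    exact ⟨h.1.1, h.1.2.1, h.1.2.2, h.2⟩

/-- N9 -/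
theorem choose_primes (c a : ℕ) (hc : 1 ≤ c) (f : ℕ → ZMod 3) : ∃ n₀ : ℕ, ∀ n : ℕ, n₀ ≤ n →
    ∃ (k M : ℕ) (ℓ : Fin k → ℕ), Function.Injective ℓ ∧
      (∀ j, (ℓ j).Prime ∧ 2 ^ c < ℓ j ∧ 3 ^ a ∣ ℓ j - 1) ∧ (∀ i j, f (ℓ i) = f (ℓ j)) ∧
      n = M * 2 ^ c + ∑ j, ℓ j ∧ Odd (M + k) ∧ 1 ≤ M := by
  classical
  obtain ⟨z, e, hinj, he⟩ := n9_inf (2 ^ (c + 1) * 3 ^ a) (2 ^ c) (by positivity) f
  have hdvd : ∀ j, 2 ^ (c + 1) * 3 ^ a ∣ e j - 1 := by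
    intro j
    have h := (he j).2.2.1
    exact (Nat.modEq_iff_dvd' (he j).1.one_lt.le).1 h.symm
  have hs : ∀ j, ∃ s, e j = 2 ^ (c + 1) * s + 1 := by
    intro j
    obtain ⟨s, hs⟩ := (dvd_mul_right (2 ^ (c + 1)) (3 ^ a)).trans (hdvd j)
    refine ⟨s, ?_⟩
    have := (he j).1.one_lt
    omega
  choose s hs using hs
  set S : ℕ := ∑ i ∈ Finset.range (2 ^ (c + 1)), e i with hS
  refine ⟨S + 2 ^ c, fun n hn => ?_⟩
  have key : ∀ k r : ℕ, k ≤ 2 ^ (c + 1) → n = r * 2 ^ c + k → Odd (r + k) →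
      ∃ (k M : ℕ) (ℓ : Fin k → ℕ), Function.Injective ℓ ∧
      (∀ j, (ℓ j).Prime ∧ 2 ^ c < ℓ j ∧ 3 ^ a ∣ ℓ j - 1) ∧ (∀ i j, f (ℓ i) = f (ℓ j)) ∧
      n = M * 2 ^ c + ∑ j, ℓ j ∧ Odd (M + k) ∧ 1 ≤ M := by
    intro k r hk hnr hodd
    have hsum : ∑ j : Fin k, e (j : ℕ) = 2 ^ (c + 1) * (∑ j : Fin k, s (j : ℕ)) + k := by
      rw [Finset.sum_congr rfl (fun (j : Fin k) _ => hs (j : ℕ)), Finset.sum_add_distrib,
        ← Finset.mul_sum]
      simp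
    have hle : ∑ j : Fin k, e (j : ℕ) ≤ S := by
      rw [Fin.sum_univ_eq_sum_range (fun i => e i) k, hS]
      exact Finset.sum_le_sum_of_subset (Finset.range_subset_range.2 hk)
    set T : ℕ := ∑ j : Fin k, s (j : ℕ) with hT
    have hpow : (2 : ℕ) ^ (c + 1) = 2 ^ c * 2 := pow_succ 2 c
    have hpos : 0 < (2 : ℕ) ^ c := by positivity
    have hr : 2 * T + 1 ≤ r := by
      have h1 : 2 ^ c * (2 * T + 1) ≤ 2 ^ c * r := by
        have h2 : 2 ^ (c + 1) * T + k + 2 ^ c ≤ r * 2 ^ c + k := by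
          rw [← hnr, ← hsum]; omega
        rw [hpow] at h2
        nlinarith
      exact Nat.le_of_mul_le_mul_left h1 hpos
    obtain ⟨M, hM⟩ : ∃ M, r = M + 2 * T := ⟨r - 2 * T, by omega⟩
    refine ⟨k, M, fun j => e (j : ℕ), ?_, ?_, ?_, ?_, ?_, by omega⟩
    · intro i j h
      exact Fin.ext (hinj h)
    · intro j
      exact ⟨(he j).1, (he j).2.1, (dvd_mul_left _ _).trans (hdvd j)⟩
    · intro i j
      rw [(he i).2.2.2, (he j).2.2.2]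
    · rw [hsum, hnr, hM, hpow]; ring
    · rw [hM] at hodd
      obtain ⟨u, hu⟩ := hodd
      exact ⟨u - T, by omega⟩
  have hdm := Nat.div_add_mod n (2 ^ c)
  have hpos : 0 < (2 : ℕ) ^ c := by positivity
  have hmod := Nat.mod_lt n hpos
  have hpow : (2 : ℕ) ^ (c + 1) = 2 ^ c * 2 := pow_succ 2 c
  by_cases hodd : Odd (n / 2 ^ c + n % 2 ^ c)
  · exact key (n % 2 ^ c) (n / 2 ^ c) (by omega) (by rw [mul_comm]; exact hdm.symm) hodd
  · have hq : 1 ≤ n / 2 ^ c := by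
      rw [Nat.le_div_iff_mul_le hpos]; omega
    obtain ⟨q, hq'⟩ : ∃ q, n / 2 ^ c = q + 1 := ⟨n / 2 ^ c - 1, by omega⟩
    have hev : Even ((2 : ℕ) ^ c) := (Nat.even_pow.2 ⟨even_two, by omega⟩)
    refine key (n % 2 ^ c + 2 ^ c) q (by omega) ?_ ?_
    · rw [hq'] at hdm
      linarith [hdm, Nat.mul_comm (2 ^ c) q, Nat.mul_add (2 ^ c) q 1]
    · rw [Nat.not_odd_iff_even, hq'] at hodd
      obtain ⟨u, hu⟩ := hodd
      obtain ⟨v, hv⟩ := hev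
      exact ⟨u + v - 1, by omega⟩

end Pool.Agent.H98R2.Nb
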