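import Pool.Agent.H98R2.Nb.Defs
import Pool.Agent.H98R2.Nb.GC
import Pool.Agent.H98R2.Nb.N4a
import Pool.Agent.H98R2.Nb.N4b
import Pool.Agent.H98R2.Nb.N4c
import Pool.Agent.H98R2.Nb.N4d
import Pool.Agent.H98R2.Nb.N5a
import Pool.Agent.H98R2.Nb.N8
import Pool.Agent.H98R2.Nb.N9
import Pool.Agent.H98R2.Ev.T3
import Pool.Agent.H98R2.Ev.T15

set_option autoImplicit false

namespace Pool.Agent.H98R2.Nb

open Finset Pool.Agent.H98R2.Ev

theorem Has.mono {𝓕 : Fam} {V W : Type} {G : SimpleGraph V} {H : SimpleGraph W}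
    (h : Has 𝓕 G) (hGH : G.IsContained H) : Has 𝓕 H := by
  obtain ⟨F, hF, hFG⟩ := h
  exact ⟨F, hF, hFG.trans hGH⟩

theorem final_mod (k : ℕ) (c : ZMod 3) : -(1 + c) ^ k - (1 - c) ^ k ≠ (0 : ZMod 3) := by
  have h3 : ∀ c : ZMod 3, c = 0 ∨ c = 1 ∨ c = 2 := by decide
  have h2 : ∀ k : ℕ, (2 : ZMod 3) ^ k = 1 ∨ (2 : ZMod 3) ^ k = 2 := by
    intro k
    induction k with
    | zero => left; simp
    | succ k ih =>
      rw [pow_succ]
      rcases ih with h | h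
      · right; rw [h]; decide
      · left; rw [h]; decide
  rcases Nat.eq_zero_or_pos k with rfl | hk
  · simp only [pow_zero]; decide
  · rcases h3 c with rfl | rfl | rfl
    · simp only [add_zero, sub_zero, one_pow]; decide
    · rw [sub_self, zero_pow hk.ne', sub_zero, show (1 : ZMod 3) + 1 = 2 by decide]
      rcases h2 k with h | h <;> rw [h] <;> decide
    · rw [show (1 : ZMod 3) + 2 = 0 by decide, zero_pow hk.ne', neg_zero,
        show (1 : ZMod 3) - 2 = 2 by decide]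
      rcases h2 k with h | h <;> rw [h] <;> decide

/-- the block structure contradicts non-evasiveness -/
theorem no_ne (𝓕 : Fam) (b : ℕ) (hgood : Good 𝓕 b) (F₀ : Σ k : ℕ, SimpleGraph (Fin k))
    (hF₀ : F₀ ∈ 𝓕) (N : ℕ) (hnc : NC F₀.2 N) (c a k M : ℕ) (hc : 1 ≤ c) (hb : b ≤ 2 ^ c)
    (hF : F₀.1 ≤ 2 ^ c) (ha : N ≤ a) (ℓ : Fin k → ℕ) [∀ j, Fact (ℓ j).Prime]
    (hinj : Function.Injective ℓ) (hbig : ∀ j, 2 ^ c < ℓ j) (w : ∀ j, (ZMod (ℓ j))ˣ)
    (hord : ∀ j, orderOf (w j) = 3 ^ a)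
    (hcv : ∀ i j, ((cv 𝓕 (ℓ i) (w i) : ℤ) : ZMod 3) = ((cv 𝓕 (ℓ j) (w j) : ℤ) : ZMod 3))
    (hodd : Odd (M + k)) (hM : 1 ≤ M) (K : Type) [Field K] [Fintype K] [DecidableEq K]
    [CharP K 2] (hK : Nat.card K = 2 ^ c)
    (hne : NE (univ : Finset (EV (VB (fun _ : Fin M => K) ℓ)))
      (fun S => ¬ Has 𝓕 (toG S))) : False := by
  classical
  let F : Fin M → Type := fun _ => K
  have hcard : ∀ i : Fin M, Nat.card (F i) = 2 ^ c := fun i => hK
  have : Nonempty (Fin M) := ⟨⟨0, by omega⟩⟩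
  -- generators
  obtain ⟨γ, hγ⟩ := IsCyclic.exists_generator (α := Kˣ)
  let g : ∀ i, (F i)ˣ := fun _ => γ
  have hgen : ∀ i (x : (F i)ˣ), ∃ u : ℕ, x = g i ^ u := by
    intro i x
    obtain ⟨u, hu⟩ := (mem_powers_iff_mem_zpowers).2 (hγ x)
    exact ⟨u, hu.symm⟩
  have hN0 : 0 < 2 ^ c - 1 := by
    have : 2 ^ 1 ≤ 2 ^ c := Nat.pow_le_pow_right (by norm_num) hc
    omega
  have hcop : ∀ j, Nat.Coprime (2 ^ c - 1) (ℓ j) := by
    intro j
    rw [Nat.coprime_comm, (Fact.out : (ℓ j).Prime).coprime_iff_not_dvd]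
    intro h
    have := Nat.le_of_dvd hN0 h
    have := hbig j
    omega
  have hgN : ∀ i, g i ^ (2 ^ c - 1) = 1 := by
    intro i
    have h1 : Nat.card Kˣ = 2 ^ c - 1 := by
      rw [Nat.card_units, hK]
    rw [← h1]
    exact pow_card_eq_one'
  have hord3 : ∀ j, 3 ^ N ≤ orderOf (w j) := by
    intro j
    rw [hord j]
    exact Nat.pow_le_pow_right (by norm_num) ha
  have hI : ∀ i, max b F₀.1 ≤ Nat.card (F i) := by
    intro i
    rw [hcard i]
    exact max_le hb hF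
  have hJ : ∀ j, max b F₀.1 ≤ ℓ j := by
    intro j
    exact (max_le hb hF).trans (hbig j).le
  have hcrit := GC.graph_criterion (V := VB F ℓ) (fun G => ¬ Has 𝓕 G)
    (fun G G' hGG' hP h => hP (h.mono (SimpleGraph.IsContained.of_le hGG')))
    (fun s G hP h => hP (h.mono ⟨(SimpleGraph.Iso.map s G).symm.toCopy⟩))
    (by
      rintro ⟨⟨kk, H⟩, hH, ⟨f⟩⟩
      have h2 := hgood.nonbip _ hH
      apply h2
      refine ⟨SimpleGraph.Coloring.mk (fun _ => (0 : Fin 2)) ?_⟩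
      intro u v huv
      exact (f.toHom.map_adj huv).elim)
    hne 2 3 a (fun t : (∀ i, F i) => tra t) (cycv g (fun _ => 1)) (mulv w)
    (fun s t => tra_comm s t) (fun t => tra_sq t)
    (mulv_pow w _ (fun j => by rw [← hord j]; exact pow_orderOf_eq_one _))
    (fun t => tra_mulv t w)
    (by
      intro G hG t
      rw [cycv_tra]
      exact hG _)
    (by
      intro G _ hG
      rw [mulv_cycv]
      have := inv_cycv (2 ^ c - 1) hN0 hinj hcop g hgN G hG 1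
        (fun j => (((w j)⁻¹ : (ZMod (ℓ j))ˣ) : ZMod (ℓ j)) * 1)
      simpa only [pow_one] using this)
    (fun A : Finset (Omg (I := Fin M) w) => gA w A)
    (fun A B => gA_le w A B) (fun A t => (gA_inv w A).1 t) (fun A => (gA_inv w A).2.1 g _)
    (fun A => (gA_inv w A).2.2)
    (by
      intro G hP hG1 hG2 hG3
      exact complete (2 ^ c - 1) hN0 hinj hcop g hgN w G hG1 hG2 hG3 (by
        intro i x y hxy
        exact hP (has_heavy 𝓕 F₀ hF₀ g hgen G hG1 hG2 i (by rw [hcard i]; exact hF) x y hxy)))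
  have htot := total (F := F) 𝓕 b hgood F₀ hF₀ N hnc hI hJ w hord3
  have h1 : (3 : ℤ) ∣ (-(∏ j, (1 + cv 𝓕 (ℓ j) (w j))) +
      (-1) ^ (Fintype.card (Fin M) + Fintype.card (Fin k)) * ∏ j, (1 - cv 𝓕 (ℓ j) (w j))) := by
    have h6 : (3 : ℤ) ∣ ∑ A : Finset (Omg (I := Fin M) w),
        if ¬ Has 𝓕 (gA (F := F) w A) then (-1 : ℤ) ^ A.card else 0 := by
      convert hcrit using 3
      norm_num
    exact (Int.dvd_iff_dvd_of_dvd_sub htot).1 h6
  rw [Fintype.card_fin, Fintype.card_fin, hodd.neg_one_pow] at h1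
  have h2 := (ZMod.intCast_zmod_eq_zero_iff_dvd _ 3).2 h1
  push_cast at h2
  have hk : ∃ e : ZMod 3, ∀ j, ((cv 𝓕 (ℓ j) (w j) : ℤ) : ZMod 3) = e := by
    rcases Nat.eq_zero_or_pos k with hk0 | hk0
    · subst hk0; exact ⟨0, fun j => j.elim0⟩
    · exact ⟨_, fun j => hcv j ⟨0, hk0⟩⟩
  obtain ⟨e, he⟩ := hk
  simp only [he, prod_const, card_univ, Fintype.card_fin] at h2
  apply final_mod k e
  rw [← h2]; ring

/-- **Main theorem.** -/
theorem main (𝓕 : Fam) (b : ℕ) (hgood : Good 𝓕 b) (hnc : ∃ F ∈ 𝓕, ∃ N, NC F.2 N) :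
    ∃ n₀ : ℕ, ∀ n : ℕ, n₀ ≤ n →
      ∀ s : Finset (Sym2 (Fin n)) → SimpleGraph (Fin n) → Sym2 (Fin n),
        (∀ (Q : Finset (Sym2 (Fin n))) (G H : SimpleGraph (Fin n)),
            (∀ e ∈ Q, (e ∈ G.edgeSet ↔ e ∈ H.edgeSet)) → s Q G = s Q H) →
        ∃ G H : SimpleGraph (Fin n),
          (∀ e ∈ (fun Q : Finset (Sym2 (Fin n)) => insert (s Q G) Q)^[n.choose 2 - 1]
                (∅ : Finset (Sym2 (Fin n))),
              (e ∈ G.edgeSet ↔ e ∈ H.edgeSet)) ∧ Has 𝓕 G ∧ ¬ Has 𝓕 H := by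
  classical
  obtain ⟨F₀, hF₀, N, hnc⟩ := hnc
  -- the size of the field blocks
  obtain ⟨c, hc, hb, hF⟩ : ∃ c, 1 ≤ c ∧ b ≤ 2 ^ c ∧ F₀.1 ≤ 2 ^ c := by
    refine ⟨b + F₀.1 + 1, by omega, ?_, ?_⟩
    · exact (Nat.lt_two_pow_self).le.trans (Nat.pow_le_pow_right (by norm_num) (by omega))
    · exact (Nat.lt_two_pow_self).le.trans (Nat.pow_le_pow_right (by norm_num) (by omega))
  -- elements of order 3 ^ N
  have hw : ∀ l : ℕ, ∃ f : ZMod 3, ∀ [Fact l.Prime], 3 ^ N ∣ l - 1 →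
      ∃ w : (ZMod l)ˣ, orderOf w = 3 ^ N ∧ ((cv 𝓕 l w : ℤ) : ZMod 3) = f := by
    intro l
    by_cases hl : l.Prime ∧ 3 ^ N ∣ l - 1
    · have : Fact l.Prime := ⟨hl.1⟩
      obtain ⟨w, hw⟩ : ∃ w : (ZMod l)ˣ, orderOf w = 3 ^ N := by
        have h1 : Nat.card (ZMod l)ˣ = l - 1 := by
          rw [Nat.card_eq_fintype_card, ZMod.card_units_eq_totient, Nat.totient_prime hl.1]
        obtain ⟨γ, hγ⟩ := IsCyclic.exists_generator (α := (ZMod l)ˣ)
        have h2 : orderOf γ = l - 1 := by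
          rw [← h1]; exact orderOf_eq_card_of_forall_mem_zpowers hγ
        obtain ⟨m, hm⟩ := hl.2
        have hl1 : 0 < l - 1 := by have := hl.1.two_le; omega
        have hm0 : m ≠ 0 := by rintro rfl; omega
        refine ⟨γ ^ m, ?_⟩
        rw [orderOf_pow' γ hm0, h2, hm, Nat.gcd_eq_right (Dvd.intro_left _ rfl),
          Nat.mul_div_cancel _ (Nat.pos_of_ne_zero hm0)]
      exact ⟨((cv 𝓕 l w : ℤ) : ZMod 3), fun _ => ⟨w, hw, rfl⟩⟩
    · refine ⟨0, ?_⟩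
      intro hp h
      exact absurd ⟨hp.out, h⟩ hl
  choose f hf using hw
  obtain ⟨n₀, hn₀⟩ := choose_primes c N hc f
  refine ⟨max n₀ 2, fun n hn s hs => ?_⟩
  by_contra hbad
  have hn2 : 2 ≤ n := (le_max_right _ _).trans hn
  obtain ⟨k, M, ℓ, hinj, hprop, hfeq, hnk, hodd, hM⟩ := hn₀ n ((le_max_left _ _).trans hn)
  have hNE := ne_of_strategy n hn2 (fun G => Has 𝓕 G) s hs hbad
  have : ∀ j, Fact (ℓ j).Prime := fun j => ⟨(hprop j).1⟩
  choose w hw1 hw2 using fun j => hf (ℓ j) (hprop j).2.2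
  -- the field
  let K := GaloisField 2 c
  have : Fintype K := Fintype.ofFinite _
  have hK : Nat.card K = 2 ^ c := GaloisField.card 2 c (by omega)
  have hcard : Fintype.card (Fin n) = Fintype.card (VB (fun _ : Fin M => K) ℓ) := by
    rw [Fintype.card_fin, Fintype.card_sum, Fintype.card_sigma, Fintype.card_sigma]
    simp only [ZMod.card, sum_const, card_univ, Fintype.card_fin, smul_eq_mul]
    rw [← Nat.card_eq_fintype_card, hK]
    exact hnk
  let e : Fin n ≃ VB (fun _ : Fin M => K) ℓ := Fintype.equivOfCardEq hcard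
  have hNE2 := ne_map15 (ev15 e) _ _ hNE
  rw [Finset.map_univ_equiv] at hNE2
  refine no_ne 𝓕 b hgood F₀ hF₀ N hnc c N k M hc hb hF le_rfl ℓ hinj (fun j => (hprop j).2.1) w
    hw1 (fun i j => by rw [hw2, hw2, hfeq i j]) hodd hM K hK ?_
  have : (fun S : Finset (EV (VB (fun _ : Fin M => K) ℓ)) => ¬ Has 𝓕 (toG S)) =
      (fun S => ¬ Has 𝓕 (toG (S.map (ev15 e).symm.toEmbedding))) := by
    funext S
    have h1 : toG (S.map (ev15 e).symm.toEmbedding) = (toG S).map e.symm.toEmbedding :=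
      toG_map15 e.symm S
    rw [h1]
    apply propext
    rw [not_iff_not]
    exact ⟨fun h => h.mono ⟨(SimpleGraph.Iso.map e.symm (toG S)).toCopy⟩,
      fun h => h.mono ⟨(SimpleGraph.Iso.map e.symm (toG S)).symm.toCopy⟩⟩
  rw [this]
  exact hNE2

end Pool.Agent.H98R2.Nb
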