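import Pool.Agent.H98R2.Nb.Defs

set_option autoImplicit false

/-! Task N8 (helper98's evasiveness project): evaluation of the signed sum modulo 3.
The statements of N5b, N5c, N5d, N6 are taken as hypotheses. -/

namespace Pool.Agent.H98R2.Nb

open Finset Pool.Agent.H98R2.Ev

namespace N8

section

variable {J : Type} [Fintype J] [DecidableEq J] {ℓ : J → ℕ} [∀ j, Fact (ℓ j).Prime]

omit [Fintype J] [DecidableEq J] in
theorem mem_comp {w : ∀ j, (ZMod (ℓ j))ˣ} {T : Finset (Σ j : J, Om (ℓ j) (w j))} {j : J}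
    {x : Om (ℓ j) (w j)} : x ∈ comp w T j ↔ (⟨j, x⟩ : Σ j : J, Om (ℓ j) (w j)) ∈ T := by
  unfold comp
  exact Finset.mem_preimage

/-- sets of pairs and families of sets -/
noncomputable def sigEquiv (w : ∀ j, (ZMod (ℓ j))ˣ) :
    Finset (Σ j : J, Om (ℓ j) (w j)) ≃ (∀ j, Finset (Om (ℓ j) (w j))) where
  toFun T := comp w T
  invFun f := univ.sigma f
  left_inv T := by
    ext ⟨j, x⟩
    simp [mem_comp]
  right_inv f := by
    funext j
    ext x
    simp [mem_comp]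

omit [DecidableEq J] in
theorem card_comp (w : ∀ j, (ZMod (ℓ j))ˣ) (T : Finset (Σ j : J, Om (ℓ j) (w j))) :
    T.card = ∑ j, (comp w T j).card := by
  conv_lhs => rw [← (sigEquiv w).left_inv T]
  exact Finset.card_sigma _ _

theorem reindex {E : Type} [Fintype E] (w : ∀ j, (ZMod (ℓ j))ˣ)
    (G : Finset E → (∀ j, Finset (Om (ℓ j) (w j))) → Prop) [∀ S T, Decidable (G S T)] :
    ∑ A : Finset (E ⊕ (Σ j, Om (ℓ j) (w j))),
      (if G A.toLeft (comp w A.toRight) then (-1:ℤ) ^ A.card else 0) =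
    ∑ T : (∀ j, Finset (Om (ℓ j) (w j))), ∑ S : Finset E,
      (if G S T then (-1:ℤ) ^ S.card * ∏ j, (-1:ℤ) ^ (T j).card else 0) := by
  rw [Finset.sum_comm]
  rw [← Fintype.sum_prod_type' (f := fun (S : Finset E) (T : ∀ j, Finset (Om (ℓ j) (w j))) =>
    (if G S T then (-1:ℤ) ^ S.card * ∏ j, (-1:ℤ) ^ (T j).card else 0))]
  refine Fintype.sum_equiv
    ((Finset.sumEquiv (α := E) (β := (Σ j, Om (ℓ j) (w j)))).toEquiv.trans
      (Equiv.prodCongr (Equiv.refl _) (sigEquiv w))) _ _ ?_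
  intro A
  have h1 : A.card = A.toLeft.card + ∑ j, (comp w A.toRight j).card := by
    rw [← card_comp w A.toRight, Finset.card_toLeft_add_card_toRight]
  have h2 : (-1:ℤ) ^ A.card = (-1:ℤ) ^ A.toLeft.card *
      ∏ j, (-1:ℤ) ^ (comp w A.toRight j).card := by
    rw [h1, pow_add, Finset.prod_pow_eq_pow_sum]
  rw [h2]
  rfl

end

theorem not_has_bot {𝓕 : Fam} {b : ℕ} (hgood : Good 𝓕 b) {V : Type} {G : SimpleGraph V}
    (hG : ∀ x y, ¬ G.Adj x y) : ¬ Has 𝓕 G := by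
  rintro ⟨F, hF, ⟨f⟩⟩
  apply hgood.nonbip F hF
  exact ⟨SimpleGraph.Coloring.mk (fun _ => 0) (fun {x y} h => absurd (f.toHom.map_adj h) (hG _ _))⟩

open Classical in
theorem sum_one {𝓕 : Fam} {b : ℕ} (hgood : Good 𝓕 b) {l : ℕ} [NeZero l] (w : (ZMod l)ˣ) :
    ∑ t : Finset (Om l w), (if Has 𝓕 (cg w t) then (0:ℤ) else (-1) ^ t.card) = 1 + cv 𝓕 l w := by
  have h0 : ¬ Has 𝓕 (cg w (∅ : Finset (Om l w))) := by
    apply not_has_bot hgood
    rintro x y ⟨-, d, -, h⟩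
    simp at h
  unfold cv
  rw [← sub_eq_iff_eq_add, ← Finset.sum_sub_distrib]
  rw [Finset.sum_eq_single (∅ : Finset (Om l w))]
  · rw [if_neg h0, if_pos (Or.inl rfl)]
    simp
  · intro t _ ht
    by_cases h : Has 𝓕 (cg w t)
    · rw [if_pos h, if_pos (Or.inr h)]; simp
    · rw [if_neg h, if_neg (by tauto)]; simp
  · intro h
    exact absurd (Finset.mem_univ _) h

open Classical in
theorem sum_two {𝓕 : Fam} {b : ℕ} (hgood : Good 𝓕 b) {l : ℕ} [NeZero l] (w : (ZMod l)ˣ) :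
    ∑ t : Finset (Om l w), (if Has 𝓕 (cg w t) then (0:ℤ) else (-1) ^ t.card) *
      (if t.Nonempty then (-1:ℤ) else 1) = 1 - cv 𝓕 l w := by
  have h0 : ¬ Has 𝓕 (cg w (∅ : Finset (Om l w))) := by
    apply not_has_bot hgood
    rintro x y ⟨-, d, -, h⟩
    simp at h
  unfold cv
  rw [eq_sub_iff_add_eq, ← Finset.sum_add_distrib]
  rw [Finset.sum_eq_single (∅ : Finset (Om l w))]
  · rw [if_neg h0, if_pos (Or.inl rfl)]
    simp
  · intro t _ ht
    have hne : t.Nonempty := Finset.nonempty_iff_ne_empty.2 ht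
    by_cases h : Has 𝓕 (cg w t)
    · rw [if_pos h, if_pos (Or.inr h)]; simp
    · rw [if_neg h, if_pos hne, if_neg (by tauto)]; ring
  · intro h
    exact absurd (Finset.mem_univ _) h

end N8

section VB

variable {I J : Type} {F : I → Type} [∀ i, Field (F i)] {ℓ : J → ℕ}
  [Fintype J] [∀ j, Fact (ℓ j).Prime] [Fintype I] [DecidableEq I] [DecidableEq J]

open Classical in
theorem total_of
    (has_adj : ∀ (𝓕 : Fam) (F₀ : Σ k : ℕ, SimpleGraph (Fin k)) (hF₀ : F₀ ∈ 𝓕) (N : ℕ)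
      (hnc : NC F₀.2 N) (hI : ∀ i, F₀.1 ≤ Nat.card (F i)) (hJ : ∀ j, F₀.1 ≤ ℓ j)
      (w : ∀ j, (ZMod (ℓ j))ˣ) (hord : ∀ j, 3 ^ N ≤ orderOf (w j)) (S : Finset (EV (I ⊕ J)))
      (T : ∀ j, Finset (Om (ℓ j) (w j))) (j : J) (hT : (T j).Nonempty) (x : I ⊕ J)
      (hS : (toG S).Adj (Sum.inr j) x), Has 𝓕 (gg (F := F) w S T))
    (has_iff : ∀ (𝓕 : Fam) (b : ℕ) (hgood : Good 𝓕 b) (hI : ∀ i, b ≤ Nat.card (F i))
      (hJ : ∀ j, b ≤ ℓ j) (w : ∀ j, (ZMod (ℓ j))ˣ) (S : Finset (EV (I ⊕ J)))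
      (T : ∀ j, Finset (Om (ℓ j) (w j)))
      (hiso : ∀ j, (T j).Nonempty → ∀ x, ¬ (toG S).Adj (Sum.inr j) x),
      Has 𝓕 (gg (F := F) w S T) ↔
        (∃ j, Has 𝓕 (cg (w j) (T j))) ∨ Has 𝓕 (blow (toG S) b))
    (has_K3 : ∀ (𝓕 : Fam) (b : ℕ) (hgood : Good 𝓕 b) (F₀ : Σ k : ℕ, SimpleGraph (Fin k))
      (hF₀ : F₀ ∈ 𝓕) (N : ℕ) (hnc : NC F₀.2 N), Has 𝓕 (blow (⊤ : SimpleGraph (Fin 3)) b))
    (sc_parity : ∀ (𝓕 : Fam) (b : ℕ) (hgood : Good 𝓕 b)
      (hK3 : Has 𝓕 (blow (⊤ : SimpleGraph (Fin 3)) b)) (K : Finset (I ⊕ J)) (hK : K.Nonempty),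
      (3 : ℤ) ∣ sc 𝓕 b K - ((K.card % 2 : ℕ) : ℤ))
    (𝓕 : Fam) (b : ℕ) (hgood : Good 𝓕 b) (F₀ : Σ k : ℕ, SimpleGraph (Fin k))
    (hF₀ : F₀ ∈ 𝓕) (N : ℕ) (hnc : NC F₀.2 N) (hI : ∀ i, max b F₀.1 ≤ Nat.card (F i))
    (hJ : ∀ j, max b F₀.1 ≤ ℓ j) (w : ∀ j, (ZMod (ℓ j))ˣ) (hord : ∀ j, 3 ^ N ≤ orderOf (w j))
    [Nonempty I] :
    (3 : ℤ) ∣ (∑ A : Finset (Omg (I := I) w),
        if ¬ Has 𝓕 (gA (F := F) w A) then (-1 : ℤ) ^ A.card else 0) -
      (-(∏ j, (1 + cv 𝓕 (ℓ j) (w j))) +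
        (-1) ^ (Fintype.card I + Fintype.card J) * ∏ j, (1 - cv 𝓕 (ℓ j) (w j))) := by
  -- reindexing
  have e1 : (∑ A : Finset (Omg (I := I) w),
        if ¬ Has 𝓕 (gA (F := F) w A) then (-1 : ℤ) ^ A.card else 0) =
      ∑ T : (∀ j, Finset (Om (ℓ j) (w j))), ∑ S : Finset (EV (I ⊕ J)),
        (if ¬ Has 𝓕 (gg (F := F) w S T) then (-1:ℤ) ^ S.card * ∏ j, (-1:ℤ) ^ (T j).card
          else 0) := by
    refine (Fintype.sum_congr _ _ (fun A => ?_)).trans
      (N8.reindex w (fun S T => ¬ Has 𝓕 (gg (F := F) w S T)))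
    by_cases h : Has 𝓕 (gA (F := F) w A)
    · have h' : Has 𝓕 (gg (F := F) w A.toLeft (comp w A.toRight)) := h
      rw [if_neg (by simpa using h), if_neg (by simpa using h')]
    · have h' : ¬ Has 𝓕 (gg (F := F) w A.toLeft (comp w A.toRight)) := h
      rw [if_pos h, if_pos h']
  rw [e1]
  set a : ∀ j, Finset (Om (ℓ j) (w j)) → ℤ := fun j t =>
    (if Has 𝓕 (cg (w j) t) then (0:ℤ) else (-1) ^ t.card) with ha
  set K : (∀ j, Finset (Om (ℓ j) (w j))) → Finset (I ⊕ J) := fun T =>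
    univ.filter (fun x : I ⊕ J => ∀ j, x = Sum.inr j → ¬ (T j).Nonempty) with hK
  have hmemK : ∀ T (x : I ⊕ J), x ∈ K T ↔ ∀ j, x = Sum.inr j → ¬ (T j).Nonempty := by
    intro T x
    simp [hK]
  -- inner sum
  have e2 : ∀ T : (∀ j, Finset (Om (ℓ j) (w j))), ∑ S : Finset (EV (I ⊕ J)),
        (if ¬ Has 𝓕 (gg (F := F) w S T) then (-1:ℤ) ^ S.card * ∏ j, (-1:ℤ) ^ (T j).card
          else 0) = (∏ j, a j (T j)) * sc 𝓕 b (K T) := by
    intro T
    unfold sc
    rw [Finset.mul_sum]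
    apply Fintype.sum_congr
    intro S
    by_cases hc : ∀ e ∈ S, ∀ x ∈ e.1, x ∈ K T
    · have hiso : ∀ j, (T j).Nonempty → ∀ x, ¬ (toG S).Adj (Sum.inr j) x := by
        intro j hj x hadj
        unfold toG at hadj
        rw [SimpleGraph.fromEdgeSet_adj] at hadj
        obtain ⟨⟨hd, hS⟩, -⟩ := hadj
        have := hc _ hS (Sum.inr j) (by simp)
        rw [hmemK] at this
        exact this j rfl hj
      have hiff := has_iff 𝓕 b hgood (fun i => (le_max_left _ _).trans (hI i))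
        (fun j => (le_max_left _ _).trans (hJ j)) w S T hiso
      by_cases hx : ∃ j, Has 𝓕 (cg (w j) (T j))
      · have h1 : Has 𝓕 (gg (F := F) w S T) := hiff.2 (Or.inl hx)
        rw [if_neg (by simpa using h1)]
        obtain ⟨j, hj⟩ := hx
        have : ∏ j, a j (T j) = 0 := by
          apply Finset.prod_eq_zero (Finset.mem_univ j)
          simp only [ha]
          rw [if_pos hj]
        rw [this, zero_mul]
      · have h2 : ∏ j, a j (T j) = ∏ j, (-1:ℤ) ^ (T j).card := by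
          apply Finset.prod_congr rfl
          intro j _
          simp only [ha]
          rw [if_neg (fun h => hx ⟨j, h⟩)]
        rw [h2]
        by_cases hb : Has 𝓕 (blow (toG S) b)
        · have h1 : Has 𝓕 (gg (F := F) w S T) := hiff.2 (Or.inr hb)
          rw [if_neg (by simpa using h1), if_neg (by tauto), mul_zero]
        · have h1 : ¬ Has 𝓕 (gg (F := F) w S T) := fun h => by
            rcases hiff.1 h with h | h
            · exact hx h
            · exact hb h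
          rw [if_pos h1, if_pos ⟨hc, hb⟩, mul_comm]
    · have hneg : ¬ ((∀ e ∈ S, ∀ x ∈ e.1, x ∈ K T) ∧ ¬ Has 𝓕 (blow (toG S) b)) :=
        fun h => hc h.1
      rw [if_neg hneg, mul_zero]
      push Not at hc
      obtain ⟨⟨e, hd⟩, heS, x, hx, hxK⟩ := hc
      rw [hmemK] at hxK
      push Not at hxK
      obtain ⟨j, rfl, hj⟩ := hxK
      obtain ⟨y, rfl⟩ := Sym2.mem_iff_exists.1 hx
      have hne : (Sum.inr j : I ⊕ J) ≠ y := by
        intro h
        apply hd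
        rw [← h]
        simp
      have hadj : (toG S).Adj (Sum.inr j) y := by
        unfold toG
        rw [SimpleGraph.fromEdgeSet_adj]
        exact ⟨⟨hd, heS⟩, hne⟩
      have := has_adj 𝓕 F₀ hF₀ N hnc (fun i => (le_max_right _ _).trans (hI i))
        (fun j => (le_max_right _ _).trans (hJ j)) w hord S T j hj y hadj
      rw [if_neg (by simpa using this)]
  rw [Fintype.sum_congr _ _ e2]
  -- the right side
  set s : ∀ j, Finset (Om (ℓ j) (w j)) → ℤ := fun j t => if t.Nonempty then (-1:ℤ) else 1 with hs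
  have hKcard : ∀ T, (-1:ℤ) ^ (K T).card =
      (-1) ^ (Fintype.card I + Fintype.card J) * ∏ j, s j (T j) := by
    intro T
    have h1 : ∏ j, s j (T j) = (-1:ℤ) ^ (univ.filter (fun j : J => (T j).Nonempty)).card := by
      simp only [hs]
      rw [Finset.prod_ite]
      simp
    have h2 : (K T).card + (univ.filter (fun j : J => (T j).Nonempty)).card =
        Fintype.card I + Fintype.card J := by
      have h3 : (univ.filter (fun j : J => (T j).Nonempty)).card =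
          (univ.filter (fun x : I ⊕ J => ¬ (∀ j, x = Sum.inr j → ¬ (T j).Nonempty))).card := by
        rw [← Finset.card_map (⟨Sum.inr, Sum.inr_injective⟩ : J ↪ I ⊕ J)]
        congr 1
        ext x
        simp only [Finset.mem_map, Finset.mem_filter, Finset.mem_univ, true_and,
          Function.Embedding.coeFn_mk]
        push Not
        constructor
        · rintro ⟨j, hj, rfl⟩
          exact ⟨j, rfl, hj⟩
        · rintro ⟨j, rfl, hj⟩
          exact ⟨j, hj, rfl⟩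
      rw [h3, hK]
      simp only
      rw [Finset.card_filter_add_card_filter_not, Finset.card_univ, Fintype.card_sum]
    rw [h1, ← h2, pow_add]
    have h4 : (-1:ℤ) ^ (univ.filter (fun j : J => (T j).Nonempty)).card *
        (-1:ℤ) ^ (univ.filter (fun j : J => (T j).Nonempty)).card = 1 := by
      rw [← mul_pow]; simp
    rw [mul_assoc, h4, mul_one]
  have e3 : -(∏ j, (1 + cv 𝓕 (ℓ j) (w j))) +
        (-1) ^ (Fintype.card I + Fintype.card J) * ∏ j, (1 - cv 𝓕 (ℓ j) (w j)) =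
      ∑ T : (∀ j, Finset (Om (ℓ j) (w j))), (∏ j, a j (T j)) * (-1 + (-1) ^ (K T).card) := by
    have h1 : ∏ j, (1 + cv 𝓕 (ℓ j) (w j)) =
        ∑ T : (∀ j, Finset (Om (ℓ j) (w j))), ∏ j, a j (T j) := by
      rw [← Fintype.piFinset_univ, ← Finset.prod_univ_sum]
      apply Finset.prod_congr rfl
      intro j _
      exact (N8.sum_one hgood (w j)).symm
    have h2 : ∏ j, (1 - cv 𝓕 (ℓ j) (w j)) =
        ∑ T : (∀ j, Finset (Om (ℓ j) (w j))), ∏ j, (a j (T j) * s j (T j)) := by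
      rw [← Fintype.piFinset_univ, ← Finset.prod_univ_sum (f := fun j t => a j t * s j t)]
      apply Finset.prod_congr rfl
      intro j _
      exact (N8.sum_two hgood (w j)).symm
    rw [h1, h2, Finset.mul_sum, ← Finset.sum_neg_distrib, ← Finset.sum_add_distrib]
    apply Fintype.sum_congr
    intro T
    rw [hKcard T, Finset.prod_mul_distrib]
    ring
  rw [e3, ← Finset.sum_sub_distrib]
  apply Finset.dvd_sum
  intro T _
  rw [← mul_sub]
  apply Dvd.dvd.mul_left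
  have hne : (K T).Nonempty := by
    obtain ⟨i⟩ := ‹Nonempty I›
    refine ⟨Sum.inl i, ?_⟩
    rw [hmemK]
    intro j hj
    exact absurd hj (by simp)
  have h1 := sc_parity 𝓕 b hgood (has_K3 𝓕 b hgood F₀ hF₀ N hnc) (K T) hne
  have h2 : (3:ℤ) ∣ (((K T).card % 2 : ℕ) : ℤ) - (-1 + (-1) ^ (K T).card) := by
    rcases Nat.even_or_odd (K T).card with h | h
    · rw [Nat.even_iff.1 h, (Nat.even_iff.2 (Nat.even_iff.1 h)).neg_one_pow]
      norm_num
    · rw [Nat.odd_iff.1 h, (Nat.odd_iff.2 (Nat.odd_iff.1 h)).neg_one_pow]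
      norm_num
  have h3 := dvd_add h1 h2
  have e4 : sc 𝓕 b (K T) - (((K T).card % 2 : ℕ) : ℤ) +
      ((((K T).card % 2 : ℕ) : ℤ) - (-1 + (-1) ^ (K T).card)) =
      sc 𝓕 b (K T) - (-1 + (-1) ^ (K T).card) := by ring
  rw [e4] at h3
  exact h3

end VB

end Pool.Agent.H98R2.Nb
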