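import Pool.Agent.H98R2.Nb.Defs
import Pool.Agent.H98R2.Ev.T15

set_option autoImplicit false

/-! The statements of the tasks (with `sorry`); every proof goes into its own file `N*.lean`. -/

namespace Pool.Agent.H98R2.Nb.Stubs

open Finset Pool.Agent.H98R2.Ev Pool.Agent.H98R2.Nb

open Classical in
/-- N1 -/
theorem chain_sum {Ω : Type} [Fintype Ω] [DecidableEq Ω] (𝒟 : Finset Ω → Prop)
    (hdown : ∀ A B, A ⊆ B → 𝒟 B → 𝒟 A) (h0 : 𝒟 ∅) :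
    ∑ σ ∈ univ.filter (fun σ : Finset (Finset Ω) =>
        Ch (univ.filter (fun A : Finset Ω => A.Nonempty ∧ 𝒟 A)) σ), (-1 : ℤ) ^ σ.card =
      ∑ A ∈ univ.filter (fun A : Finset Ω => 𝒟 A), (-1 : ℤ) ^ A.card := sorry

open Classical in
/-- N2 -/
theorem count_criterion {E : Type} [DecidableEq E] [Fintype E] (D : Finset E → Prop)
    (hdown : ∀ S T, S ⊆ T → D T → D S)
    (hne : NE univ D) (h0 : D ∅) {ι : Type} [Fintype ι] (p q t : ℕ) [Fact p.Prime] [Fact q.Prime]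
    (a : ι → Equiv.Perm E) (c h : Equiv.Perm E)
    (hcomm : ∀ i j, a i * a j = a j * a i) (hap : ∀ i, a i ^ p = 1) (hq : h ^ (q ^ t) = 1)
    (hDa : ∀ i S, D S → D (S.map (a i).toEmbedding))
    (hDc : ∀ S, D S → D (S.map c.toEmbedding))
    (hDh : ∀ S, D S → D (S.map h.toEmbedding))
    (hca : ∀ S : Finset E, (∀ i, S.map (a i).toEmbedding = S) →
      ∀ i, (S.map c.toEmbedding).map (a i).toEmbedding = S.map c.toEmbedding)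
    (hha : ∀ S : Finset E, (∀ i, S.map (a i).toEmbedding = S) → S.map c.toEmbedding = S →
      (∀ i, (S.map h.toEmbedding).map (a i).toEmbedding = S.map h.toEmbedding) ∧
      (S.map h.toEmbedding).map c.toEmbedding = S.map h.toEmbedding)
    {Ω : Type} [Fintype Ω] [DecidableEq Ω] (g : Finset Ω → Finset E)
    (hg : ∀ A B, g A ⊆ g B ↔ A ⊆ B)
    (hgi : ∀ A, (∀ i, (g A).map (a i).toEmbedding = g A) ∧ (g A).map c.toEmbedding = g A ∧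
      (g A).map h.toEmbedding = g A)
    (hgs : ∀ S, D S → (∀ i, S.map (a i).toEmbedding = S) → S.map c.toEmbedding = S →
      S.map h.toEmbedding = S → ∃ A, g A = S) :
    (q : ℤ) ∣ ∑ A ∈ univ.filter (fun A : Finset Ω => D (g A)), (-1 : ℤ) ^ A.card := sorry

open Classical in
/-- N3 -/
theorem graph_criterion {V : Type} [Fintype V] [DecidableEq V] (P : SimpleGraph V → Prop)
    (hdown : ∀ G G' : SimpleGraph V, G ≤ G' → P G' → P G)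
    (hiso : ∀ (s : Equiv.Perm V) (G : SimpleGraph V), P G → P (G.map s.toEmbedding))
    (hbot : P ⊥) (hne : NE (univ : Finset (EV V)) (fun S => P (toG S)))
    {ι : Type} [Fintype ι] (p q t : ℕ) [Fact p.Prime] [Fact q.Prime]
    (a : ι → Equiv.Perm V) (c h : Equiv.Perm V)
    (hcomm : ∀ i j, a i * a j = a j * a i) (hap : ∀ i, a i ^ p = 1) (hht : h ^ (q ^ t) = 1)
    (hah : ∀ i, a i * h = h * a i)
    (hac : ∀ G : SimpleGraph V, (∀ i, Inv (a i) G) → ∀ i, Inv (c⁻¹ * a i * c) G)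
    (hch : ∀ G : SimpleGraph V, (∀ i, Inv (a i) G) → Inv c G → Inv (h⁻¹ * c * h) G)
    {Ω : Type} [Fintype Ω] [DecidableEq Ω] (g : Finset Ω → SimpleGraph V)
    (hg : ∀ A B, g A ≤ g B ↔ A ⊆ B)
    (hga : ∀ A i, Inv (a i) (g A)) (hgc : ∀ A, Inv c (g A)) (hgh : ∀ A, Inv h (g A))
    (hgs : ∀ G, P G → (∀ i, Inv (a i) G) → Inv c G → Inv h G → ∃ A, g A = G) :
    (q : ℤ) ∣ ∑ A : Finset Ω, if P (g A) then (-1 : ℤ) ^ A.card else 0 := sorry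

section VB

variable {I J : Type} {F : I → Type} [∀ i, Field (F i)] {ℓ : J → ℕ}

/-- N4d -/
theorem tra_comm (s t : ∀ i, F i) :
    (tra s : Equiv.Perm (VB F ℓ)) * tra t = tra t * tra s := sorry

/-- N4d -/
theorem tra_sq [∀ i, CharP (F i) 2] (t : ∀ i, F i) : (tra t : Equiv.Perm (VB F ℓ)) ^ 2 = 1 := sorry

/-- N4d -/
theorem mulv_pow (w : ∀ j, (ZMod (ℓ j))ˣ) (m : ℕ) (hw : ∀ j, w j ^ m = 1) :
    (mulv w : Equiv.Perm (VB F ℓ)) ^ m = 1 := sorry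

/-- N4d -/
theorem tra_mulv (t : ∀ i, F i) (w : ∀ j, (ZMod (ℓ j))ˣ) :
    (tra t : Equiv.Perm (VB F ℓ)) * mulv w = mulv w * tra t := sorry

/-- N4d -/
theorem cycv_tra (g : ∀ i, (F i)ˣ) (v : ∀ j, ZMod (ℓ j)) (t : ∀ i, F i) :
    (cycv g v : Equiv.Perm (VB F ℓ))⁻¹ * tra t * cycv g v =
      tra (fun i => (((g i)⁻¹ : (F i)ˣ) : F i) * t i) := sorry

/-- N4d -/
theorem mulv_cycv (g : ∀ i, (F i)ˣ) (v : ∀ j, ZMod (ℓ j)) (w : ∀ j, (ZMod (ℓ j))ˣ) :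
    (mulv w : Equiv.Perm (VB F ℓ))⁻¹ * cycv g v * mulv w =
      cycv g (fun j => (((w j)⁻¹ : (ZMod (ℓ j))ˣ) : ZMod (ℓ j)) * v j) := sorry

variable [Fintype J] [∀ j, Fact (ℓ j).Prime]

/-- N4a -/
theorem inv_cycv (N₀ : ℕ) (hN₀ : 0 < N₀) (hinj : Function.Injective ℓ)
    (hcop : ∀ j, Nat.Coprime N₀ (ℓ j)) (g : ∀ i, (F i)ˣ) (hg : ∀ i, g i ^ N₀ = 1)
    (G : SimpleGraph (VB F ℓ)) (hG : Inv (cycv g (fun _ => 1)) G) (u : ℕ)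
    (v : ∀ j, ZMod (ℓ j)) : Inv (cycv (fun i => g i ^ u) v) G := sorry

variable [Fintype I] [DecidableEq I] [DecidableEq J]

/-- N4b -/
theorem complete (N₀ : ℕ) (hN₀ : 0 < N₀) (hinj : Function.Injective ℓ)
    (hcop : ∀ j, Nat.Coprime N₀ (ℓ j)) (g : ∀ i, (F i)ˣ) (hg : ∀ i, g i ^ N₀ = 1)
    (w : ∀ j, (ZMod (ℓ j))ˣ) (G : SimpleGraph (VB F ℓ))
    (ha : ∀ t : ∀ i, F i, Inv (tra t) G) (hc : Inv (cycv g (fun _ => 1)) G)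
    (hw : Inv (mulv w) G)
    (hint : ∀ (i : I) (x y : F i), ¬ G.Adj (Sum.inl ⟨i, x⟩) (Sum.inl ⟨i, y⟩)) :
    ∃ A : Finset (Omg (I := I) w), gA w A = G := sorry

/-- N4c -/
theorem gA_inv (w : ∀ j, (ZMod (ℓ j))ˣ) (A : Finset (Omg (I := I) w)) :
    (∀ t : ∀ i, F i, Inv (tra t) (gA (F := F) w A)) ∧
    (∀ (g : ∀ i, (F i)ˣ) (v : ∀ j, ZMod (ℓ j)), Inv (cycv g v) (gA (F := F) w A)) ∧
    Inv (mulv w) (gA (F := F) w A) := sorry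

/-- N4c -/
theorem gA_le (w : ∀ j, (ZMod (ℓ j))ˣ) (A B : Finset (Omg (I := I) w)) :
    gA (F := F) w A ≤ gA w B ↔ A ⊆ B := sorry

/-- N5a -/
theorem has_heavy (𝓕 : Fam) (F₀ : Σ k : ℕ, SimpleGraph (Fin k)) (hF₀ : F₀ ∈ 𝓕)
    (g : ∀ i, (F i)ˣ) (hgen : ∀ i (x : (F i)ˣ), ∃ u : ℕ, x = g i ^ u)
    (G : SimpleGraph (VB F ℓ)) (ha : ∀ t : ∀ i, F i, Inv (tra t) G)
    (hc : Inv (cycv g (fun _ => 1)) G) (i : I) (hcard : F₀.1 ≤ Nat.card (F i)) (x y : F i)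
    (hxy : G.Adj (Sum.inl ⟨i, x⟩) (Sum.inl ⟨i, y⟩)) : Has 𝓕 G := sorry

/-- N7 -/
theorem cube_in_circ (l : ℕ) [Fact l.Prime] (w : (ZMod l)ˣ) (T : Finset (Om l w))
    (hT : T.Nonempty) (N : ℕ) (hN : 3 ^ N ≤ orderOf w) :
    ∃ ψ : Finset (Fin N) → ZMod l, Function.Injective ψ ∧
      ∀ A B, (symmDiff A B).card = 1 → (cg w T).Adj (ψ A) (ψ B) := sorry

/-- N5b (uses N7) -/
theorem has_adj (𝓕 : Fam) (F₀ : Σ k : ℕ, SimpleGraph (Fin k)) (hF₀ : F₀ ∈ 𝓕) (N : ℕ)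
    (hnc : NC F₀.2 N) (hI : ∀ i, F₀.1 ≤ Nat.card (F i)) (hJ : ∀ j, F₀.1 ≤ ℓ j)
    (w : ∀ j, (ZMod (ℓ j))ˣ) (hord : ∀ j, 3 ^ N ≤ orderOf (w j)) (S : Finset (EV (I ⊕ J)))
    (T : ∀ j, Finset (Om (ℓ j) (w j))) (j : J) (hT : (T j).Nonempty) (x : I ⊕ J)
    (hS : (toG S).Adj (Sum.inr j) x) : Has 𝓕 (gg (F := F) w S T) := sorry

/-- N5c -/
theorem has_iff (𝓕 : Fam) (b : ℕ) (hgood : Good 𝓕 b) (hI : ∀ i, b ≤ Nat.card (F i))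
    (hJ : ∀ j, b ≤ ℓ j) (w : ∀ j, (ZMod (ℓ j))ˣ) (S : Finset (EV (I ⊕ J)))
    (T : ∀ j, Finset (Om (ℓ j) (w j)))
    (hiso : ∀ j, (T j).Nonempty → ∀ x, ¬ (toG S).Adj (Sum.inr j) x) :
    Has 𝓕 (gg (F := F) w S T) ↔
      (∃ j, Has 𝓕 (cg (w j) (T j))) ∨ Has 𝓕 (blow (toG S) b) := sorry

/-- N5d -/
theorem has_K3 (𝓕 : Fam) (b : ℕ) (hgood : Good 𝓕 b) (F₀ : Σ k : ℕ, SimpleGraph (Fin k))
    (hF₀ : F₀ ∈ 𝓕) (N : ℕ) (hnc : NC F₀.2 N) : Has 𝓕 (blow (⊤ : SimpleGraph (Fin 3)) b) := sorry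

/-- N6 -/
theorem sc_parity (𝓕 : Fam) (b : ℕ) (hgood : Good 𝓕 b)
    (hK3 : Has 𝓕 (blow (⊤ : SimpleGraph (Fin 3)) b)) {B : Type} [Fintype B] [DecidableEq B]
    (K : Finset B) (hK : K.Nonempty) : (3 : ℤ) ∣ sc 𝓕 b K - ((K.card % 2 : ℕ) : ℤ) := sorry

open Classical in
/-- N8 (uses N5b, N5c, N5d, N6) -/
theorem total (𝓕 : Fam) (b : ℕ) (hgood : Good 𝓕 b) (F₀ : Σ k : ℕ, SimpleGraph (Fin k))
    (hF₀ : F₀ ∈ 𝓕) (N : ℕ) (hnc : NC F₀.2 N) (hI : ∀ i, max b F₀.1 ≤ Nat.card (F i))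
    (hJ : ∀ j, max b F₀.1 ≤ ℓ j) (w : ∀ j, (ZMod (ℓ j))ˣ) (hord : ∀ j, 3 ^ N ≤ orderOf (w j))
    [Nonempty I] :
    (3 : ℤ) ∣ (∑ A : Finset (Omg (I := I) w),
        if ¬ Has 𝓕 (gA (F := F) w A) then (-1 : ℤ) ^ A.card else 0) -
      (-(∏ j, (1 + cv 𝓕 (ℓ j) (w j))) +
        (-1) ^ (Fintype.card I + Fintype.card J) * ∏ j, (1 - cv 𝓕 (ℓ j) (w j))) := sorry

end VB

/-- N9 -/
theorem choose_primes (c a : ℕ) (hc : 1 ≤ c) (f : ℕ → ZMod 3) : ∃ n₀ : ℕ, ∀ n : ℕ, n₀ ≤ n →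
    ∃ (k M : ℕ) (ℓ : Fin k → ℕ), Function.Injective ℓ ∧
      (∀ j, (ℓ j).Prime ∧ 2 ^ c < ℓ j ∧ 3 ^ a ∣ ℓ j - 1) ∧ (∀ i j, f (ℓ i) = f (ℓ j)) ∧
      n = M * 2 ^ c + ∑ j, ℓ j ∧ Odd (M + k) ∧ 1 ≤ M := sorry

end Pool.Agent.H98R2.Nb.Stubs
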